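import Pool.Agent.V8H2.QW.Cst
import Pool.Agent.TH423.SH.Stm

/-!
Densities: products over primes, averages of multiplicative functions.
-/

set_option autoImplicit false

namespace Pool.Agent.V8H2.MQ

open Finset Filter Topology
open Pool.Agent.TH423.SH (PS)
open Pool.Agent.V8H2.QW (GG GG_pos GG_le GG_mertens fac_pos)

theorem sum_sq (s : Finset ℕ) (hs : ∀ p ∈ s, 1 ≤ p) : ∑ p ∈ s, 1 / (p : ℝ) ^ 2 ≤ 2 := by
  have h1 : s ⊆ Ioo 0 (s.sup id + 1) := by
    intro p hp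
    rw [mem_Ioo]
    have h2 := Finset.le_sup (f := id) hp
    have h3 := hs p hp
    simp only [id] at h2
    omega
  have h4 := sum_Ioo_inv_sq_le (α := ℝ) 0 (s.sup id + 1)
  calc ∑ p ∈ s, 1 / (p : ℝ) ^ 2 ≤ ∑ p ∈ Ioo 0 (s.sup id + 1), 1 / (p : ℝ) ^ 2 :=
        sum_le_sum_of_subset_of_nonneg h1 (fun _ _ _ => by positivity)
    _ ≤ 2 := by
        simp only [one_div]
        refine h4.trans ?_
        norm_num

theorem exp_low (x : ℝ) (h0 : 0 ≤ x) (h1 : x ≤ 1 / 2) : Real.exp (-(x + x ^ 2)) ≤ 1 - x := by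
  have h2 : 1 + (x + x ^ 2) + (x + x ^ 2) ^ 2 / 2 ≤ Real.exp (x + x ^ 2) :=
    Real.quadratic_le_exp_of_nonneg (by positivity)
  rw [Real.exp_neg, inv_le_comm₀ (Real.exp_pos _) (by linarith)]
  refine le_trans ?_ h2
  rw [inv_le_iff_one_le_mul₀ (by linarith)]
  have h3 : (1 + (x + x ^ 2) + (x + x ^ 2) ^ 2 / 2) * (1 - x) =
      1 + x ^ 2 / 2 * (1 - x - x ^ 2 - x ^ 3) := by ring
  rw [h3]
  have h4 : 0 ≤ 1 - x - x ^ 2 - x ^ 3 := by
    nlinarith [pow_le_pow_left₀ h0 h1 2, pow_le_pow_left₀ h0 h1 3]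
  have h5 : 0 ≤ x ^ 2 / 2 * (1 - x - x ^ 2 - x ^ 3) := by positivity
  linarith

theorem prod_low (κ z : ℕ) (P : Finset ℕ) (ρ : ℕ → ℝ)
    (hP : ∀ p ∈ P, p.Prime ∧ p ≤ z ∧ 2 * κ ≤ p ∧ 0 ≤ ρ p ∧ ρ p ≤ κ) :
    Real.exp (-(2 * (κ : ℝ) ^ 2)) * GG (z + 1) ^ κ ≤ ∏ p ∈ P, (1 - ρ p / p) := by
  have hfac : ∀ p ∈ P, Real.exp (-((κ : ℝ) ^ 2 * (1 / (p : ℝ) ^ 2))) * (1 - 1 / (p : ℝ)) ^ κ ≤
      1 - ρ p / p := by
    intro p hp
    obtain ⟨h1, h2, h3, h4, h5⟩ := hP p hp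
    have hp0 : (0 : ℝ) < p := by exact_mod_cast h1.pos
    have h3r : 2 * (κ : ℝ) ≤ p := by exact_mod_cast h3
    have hx1 : (κ : ℝ) / p ≤ 1 / 2 := by
      rw [div_le_div_iff₀ hp0 (by norm_num)]
      linarith
    have hx0 : 0 ≤ (κ : ℝ) / p := by positivity
    have h6 := exp_low _ hx0 hx1
    have h7 : 1 - 1 / (p : ℝ) ≤ Real.exp (-(1 / (p : ℝ))) := by
      have := Real.add_one_le_exp (-(1 / (p : ℝ)))
      linarith
    have h8 : (1 - 1 / (p : ℝ)) ^ κ ≤ Real.exp (-((κ : ℝ) / p)) := by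
      refine (pow_le_pow_left₀ (fac_pos p h1).1.le h7 κ).trans (le_of_eq ?_)
      rw [← Real.exp_nat_mul]
      congr 1
      ring
    calc Real.exp (-((κ : ℝ) ^ 2 * (1 / (p : ℝ) ^ 2))) * (1 - 1 / (p : ℝ)) ^ κ
        ≤ Real.exp (-((κ : ℝ) ^ 2 * (1 / (p : ℝ) ^ 2))) * Real.exp (-((κ : ℝ) / p)) := by
          gcongr
      _ = Real.exp (-((κ : ℝ) / p + ((κ : ℝ) / p) ^ 2)) := by
          rw [← Real.exp_add]
          congr 1
          ring
      _ ≤ 1 - (κ : ℝ) / p := h6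
      _ ≤ 1 - ρ p / p := by
          have : ρ p / p ≤ (κ : ℝ) / p := by gcongr
          linarith
  have h1 : Real.exp (-(2 * (κ : ℝ) ^ 2)) ≤
      ∏ p ∈ P, Real.exp (-((κ : ℝ) ^ 2 * (1 / (p : ℝ) ^ 2))) := by
    rw [← Real.exp_sum, Real.exp_le_exp, sum_neg_distrib, ← mul_sum, neg_le_neg_iff, mul_comm 2]
    apply mul_le_mul_of_nonneg_left _ (by positivity)
    exact sum_sq P fun p hp => (hP p hp).1.one_le
  have h2 : GG (z + 1) ^ κ ≤ ∏ p ∈ P, (1 - 1 / (p : ℝ)) ^ κ := by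
    rw [prod_pow]
    apply pow_le_pow_left₀ (GG_pos _).le
    unfold GG
    apply prod_le_prod_of_subset_of_le_one
    · intro p hp
      rw [mem_filter, mem_range]
      exact ⟨by have := (hP p hp).2.1; omega, (hP p hp).1⟩
    · intro p hp
      exact (fac_pos p (mem_filter.1 hp).2).1.le
    · intro p hp _
      exact (fac_pos p (mem_filter.1 hp).2).2
  calc Real.exp (-(2 * (κ : ℝ) ^ 2)) * GG (z + 1) ^ κ
      ≤ (∏ p ∈ P, Real.exp (-((κ : ℝ) ^ 2 * (1 / (p : ℝ) ^ 2)))) *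
        ∏ p ∈ P, (1 - 1 / (p : ℝ)) ^ κ := by
        apply mul_le_mul h1 h2 (pow_nonneg (GG_pos _).le _)
        exact prod_nonneg fun p _ => (Real.exp_pos _).le
    _ = ∏ p ∈ P, (Real.exp (-((κ : ℝ) ^ 2 * (1 / (p : ℝ) ^ 2))) * (1 - 1 / (p : ℝ)) ^ κ) := by
        rw [prod_mul_distrib]
    _ ≤ _ := by
        apply Finset.prod_le_prod
        · intro p hp
          exact mul_nonneg (Real.exp_pos _).le (pow_nonneg (fac_pos p (hP p hp).1).1.le _)
        · exact hfac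

theorem prod_up (κ W z : ℕ) (hW : 0 < W) (hκ : ∀ p : ℕ, p.Prime → p ≤ κ → p ∣ W) :
    ∏ p ∈ PS W z, (1 - (κ : ℝ) / p) ≤
      (∏ p ∈ W.primeFactors, (1 - 1 / (p : ℝ)) ^ κ)⁻¹ * GG (z + 1) ^ κ := by
  have hmem : ∀ p ∈ PS W z, p.Prime ∧ p ≤ z ∧ ¬ p ∣ W := by
    intro p hp
    unfold PS at hp
    rw [mem_filter, mem_Icc] at hp
    exact ⟨hp.2.1, hp.1.2, hp.2.2⟩
  have h1 : ∀ p ∈ PS W z, 0 ≤ 1 - (κ : ℝ) / p ∧ 1 - (κ : ℝ) / p ≤ (1 - 1 / (p : ℝ)) ^ κ := by
    intro p hp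
    obtain ⟨h1, h2, h3⟩ := hmem p hp
    have hp0 : (0 : ℝ) < p := by exact_mod_cast h1.pos
    have h4 : κ < p := by
      by_contra hcon
      exact h3 (hκ p h1 (not_lt.1 hcon))
    have h4r : (κ : ℝ) < p := by exact_mod_cast h4
    refine ⟨?_, ?_⟩
    · rw [sub_nonneg, div_le_one hp0]
      exact h4r.le
    · have h5 := one_add_mul_le_pow (a := -(1 / (p : ℝ))) (by
        have := (fac_pos p h1).1
        linarith) κ
      have e1 : 1 + (κ : ℝ) * -(1 / (p : ℝ)) = 1 - κ / p := by ring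
      have e2 : 1 + -(1 / (p : ℝ)) = 1 - 1 / (p : ℝ) := by ring
      rw [e1, e2] at h5
      exact h5
  refine (Finset.prod_le_prod (fun p hp => (h1 p hp).1) (fun p hp => (h1 p hp).2)).trans ?_
  have hpos : 0 < ∏ p ∈ W.primeFactors, (1 - 1 / (p : ℝ)) ^ κ :=
    prod_pos fun p hp => pow_pos (fac_pos p (Nat.prime_of_mem_primeFactors hp)).1 _
  rw [inv_mul_eq_div, le_div_iff₀ hpos]
  unfold GG
  rw [← prod_pow]
  have hdis : Disjoint (PS W z) W.primeFactors := by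
    rw [Finset.disjoint_left]
    intro p hp hp2
    exact (hmem p hp).2.2 (Nat.dvd_of_mem_primeFactors hp2)
  rw [← prod_union hdis]
  apply prod_le_prod_of_subset_of_le_one
  · intro p hp
    rw [mem_filter, mem_range] at hp
    rw [mem_union]
    by_cases h : p ∣ W
    · right
      exact Nat.mem_primeFactors.2 ⟨hp.2, h, hW.ne'⟩
    · left
      unfold PS
      rw [mem_filter, mem_Icc]
      exact ⟨⟨hp.2.one_le, by omega⟩, hp.2, h⟩
  · intro p hp
    rw [mem_union] at hp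
    rcases hp with hp | hp
    · exact pow_nonneg (fac_pos p (hmem p hp).1).1.le _
    · exact pow_nonneg (fac_pos p (Nat.prime_of_mem_primeFactors hp)).1.le _
  · intro p hp _
    rw [mem_union] at hp
    rcases hp with hp | hp
    · exact pow_le_one₀ (fac_pos p (hmem p hp).1).1.le (fac_pos p (hmem p hp).1).2
    · exact pow_le_one₀ (fac_pos p (Nat.prime_of_mem_primeFactors hp)).1.le
        (fac_pos p (Nat.prime_of_mem_primeFactors hp)).2

/-- the average of `∏ (1 + C / p)` -/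
theorem avg (C : ℝ) (hC : 0 ≤ C) (X : ℕ) :
    ∑ e ∈ Icc 1 X, ∏ p ∈ e.primeFactors, (1 + C / p) ≤ X * Real.exp (2 * C) := by
  classical
  set P := (Icc 1 X).filter Nat.Prime with hP
  have h1 : ∀ e ∈ Icc 1 X, ∏ p ∈ e.primeFactors, (1 + C / p) =
      ∑ s ∈ P.powerset, if (∏ p ∈ s, p) ∣ e then ∏ p ∈ s, (C / p) else 0 := by
    intro e he
    rw [mem_Icc] at he
    rw [prod_one_add, ← sum_filter]
    apply sum_congr _ (fun _ _ => rfl)
    ext s
    rw [mem_powerset, mem_filter, mem_powerset]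
    constructor
    · intro h
      refine ⟨?_, ?_⟩
      · intro p hp
        have h2 := h hp
        have h3 := Nat.dvd_of_mem_primeFactors h2
        have h4 := Nat.le_of_dvd (by omega) h3
        rw [hP, mem_filter, mem_Icc]
        have h5 := Nat.prime_of_mem_primeFactors h2
        exact ⟨⟨h5.one_le, by omega⟩, h5⟩
      · exact Finset.prod_primes_dvd e (fun p hp => (Nat.prime_of_mem_primeFactors (h hp)).prime)
          (fun p hp => Nat.dvd_of_mem_primeFactors (h hp))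
    · rintro ⟨h2, h3⟩ p hp
      have h4 := h2 hp
      rw [hP, mem_filter] at h4
      exact Nat.mem_primeFactors.2 ⟨h4.2, (dvd_prod_of_mem _ hp).trans h3, by omega⟩
  rw [sum_congr rfl h1, sum_comm]
  have h2 : ∀ s ∈ P.powerset, ∑ e ∈ Icc 1 X, (if (∏ p ∈ s, p) ∣ e then ∏ p ∈ s, (C / p) else 0) ≤
      X * ∏ p ∈ s, (C * (1 / (p : ℝ) ^ 2)) := by
    intro s hs
    rw [mem_powerset] at hs
    have hpos : 0 < ∏ p ∈ s, p := prod_pos fun p hp => by
      have := hs hp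
      rw [hP, mem_filter] at this
      exact this.2.pos
    rw [← sum_filter, sum_const, nsmul_eq_mul]
    have h3 : (((Icc 1 X).filter (fun e => (∏ p ∈ s, p) ∣ e)).card : ℝ) ≤
        X * ∏ p ∈ s, (1 / (p : ℝ)) := by
      have h4 : ((Icc 1 X).filter (fun e => (∏ p ∈ s, p) ∣ e)).card = X / ∏ p ∈ s, p := by
        have := Nat.Ioc_filter_dvd_card_eq_div X (∏ p ∈ s, p)
        rw [← this]
        congr 1
      rw [h4]
      refine Nat.cast_div_le.trans (le_of_eq ?_)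
      push_cast
      rw [div_eq_mul_inv, ← prod_inv_distrib]
      simp only [one_div]
    have h5 : 0 ≤ ∏ p ∈ s, (C / p) := prod_nonneg fun p _ => by positivity
    refine (mul_le_mul_of_nonneg_right h3 h5).trans (le_of_eq ?_)
    rw [mul_assoc, ← prod_mul_distrib]
    congr 1
    apply prod_congr rfl
    intro p _
    ring
  refine (sum_le_sum h2).trans ?_
  rw [← mul_sum, ← prod_one_add]
  apply mul_le_mul_of_nonneg_left _ (Nat.cast_nonneg X)
  calc ∏ p ∈ P, (1 + C * (1 / (p : ℝ) ^ 2)) ≤ ∏ p ∈ P, Real.exp (C * (1 / (p : ℝ) ^ 2)) := by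
        apply Finset.prod_le_prod
        · intro p _
          positivity
        · intro p _
          have := Real.add_one_le_exp (C * (1 / (p : ℝ) ^ 2))
          linarith
    _ = Real.exp (C * ∑ p ∈ P, (1 / (p : ℝ) ^ 2)) := by
        rw [← Real.exp_sum, mul_sum]
    _ ≤ Real.exp (2 * C) := by
        rw [Real.exp_le_exp, mul_comm 2]
        apply mul_le_mul_of_nonneg_left _ hC
        exact sum_sq P fun p hp => by
          rw [hP, mem_filter, mem_Icc] at hp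
          exact hp.1.1

/-- the size of the product at the sieving limit -/
theorem GG_size (ε : ℝ) (hε : 0 < ε) : ∃ c₁ c₂ : ℝ, 0 < c₁ ∧ 0 < c₂ ∧ ∀ᶠ Y : ℕ in atTop, ∀ z : ℕ,
    (z : ℝ) < (Y : ℝ) ^ ε → (Y : ℝ) ^ ε ≤ z + 1 →
    c₁ / Real.log Y ≤ GG (z + 1) ∧ GG (z + 1) ≤ c₂ / Real.log Y := by
  set L := Real.exp (-Real.eulerMascheroniConstant) with hL
  have hL0 : 0 < L := Real.exp_pos _
  have h1 : ∀ᶠ N : ℕ in atTop, L / 2 < GG (N + 1) * Real.log N :=
    GG_mertens.eventually_const_lt (by linarith)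
  have h2 : ∀ᶠ N : ℕ in atTop, GG (N + 1) * Real.log N < 2 * L :=
    GG_mertens.eventually_lt_const (by linarith)
  obtain ⟨z₀, hz₀⟩ := eventually_atTop.1 ((h1.and h2).and (eventually_ge_atTop 2))
  refine ⟨L / 2 / ε, 4 * L / ε, by positivity, by positivity, ?_⟩
  have hT := tendsto_natCast_atTop_atTop (R := ℝ)
  have h3 : ∀ᶠ Y : ℕ in atTop, (z₀ : ℝ) + 4 ≤ (Y : ℝ) ^ ε :=
    ((tendsto_rpow_atTop hε).comp hT).eventually_ge_atTop _
  filter_upwards [h3, eventually_ge_atTop 2] with Y hY hY2 z hz1 hz2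
  have hYr : (2 : ℝ) ≤ Y := by exact_mod_cast hY2
  have hlY : 0 < Real.log Y := Real.log_pos (by linarith)
  have hz3 : (z₀ : ℝ) + 3 ≤ z := by linarith
  have hz4 : z₀ + 3 ≤ z := by exact_mod_cast hz3
  obtain ⟨⟨g1, g2⟩, g3⟩ := hz₀ z (by omega)
  have hz0 : (3 : ℝ) ≤ z := by
    have : (0 : ℝ) ≤ z₀ := Nat.cast_nonneg _
    linarith
  have hlz : 0 < Real.log z := Real.log_pos (by linarith)
  have hup : Real.log z ≤ ε * Real.log Y := by
    rw [← Real.log_rpow (by linarith)]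
    exact Real.log_le_log (by linarith) hz1.le
  have hlo : ε * Real.log Y ≤ 2 * Real.log z := by
    rw [← Real.log_rpow (by linarith)]
    have : Real.log ((z : ℝ) ^ 2) = 2 * Real.log z := by
      rw [Real.log_pow]
      norm_num
    rw [← this]
    apply Real.log_le_log (by positivity)
    refine hz2.trans ?_
    nlinarith
  constructor
  · rw [div_div, div_le_iff₀ (by positivity)]
    have h5 : GG (z + 1) * Real.log z ≤ GG (z + 1) * (ε * Real.log Y) :=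
      mul_le_mul_of_nonneg_left hup (GG_pos _).le
    linarith
  · rw [div_div, le_div_iff₀ (by positivity)]
    have h5 : GG (z + 1) * (ε * Real.log Y) ≤ GG (z + 1) * (2 * Real.log z) :=
      mul_le_mul_of_nonneg_left hlo (GG_pos _).le
    linarith

end Pool.Agent.V8H2.MQ
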