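import Pool.Agent.V8H2.MQ.Up

/-!
The arguments at which one more pair has no small prime factor.
-/

set_option autoImplicit false

namespace Pool.Agent.V8H2.MQ

open Finset Filter
open Pool.Agent.TH423.SH (PS)
open Pool.Agent.Y677.RSZ (rt Sys rhoT)
open Pool.Agent.Y852.RSZ (OmC card_one_le per_dvd)
open Pool.Agent.V8H2.QW (GG GG_pos GG_le fac_pos)

theorem sum_one (C : ℝ) (hC : 0 ≤ C) (X : ℕ) (a : ℤ) (ha : |a| ≤ X + 2) (J : Finset ℕ)
    (hJ : ∀ j ∈ J, j < X ∧ a - (j : ℤ) ≠ 0 ∧ (a - (j : ℤ)).natAbs ≤ X + 2) :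
    ∑ j ∈ J, Gm C (a - (j : ℤ)).natAbs ≤ 2 * (((X + 2 : ℕ) : ℝ) * Real.exp (2 * C)) := by
  classical
  have hmaps : ∀ j ∈ J, (a - (j : ℤ)).natAbs ∈ Icc 1 (X + 2) := by
    intro j hj
    obtain ⟨h1, h2, h3⟩ := hJ j hj
    rw [mem_Icc]
    exact ⟨by omega, h3⟩
  rw [← Finset.sum_fiberwise_of_maps_to hmaps]
  have h1 : ∀ e ∈ Icc 1 (X + 2), ∑ j ∈ J.filter (fun j : ℕ => (a - (j : ℤ)).natAbs = e),
      Gm C (a - (j : ℤ)).natAbs ≤ 2 * Gm C e := by
    intro e _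
    have h2 : ∀ j ∈ J.filter (fun j : ℕ => (a - (j : ℤ)).natAbs = e),
        Gm C (a - (j : ℤ)).natAbs = Gm C e := by
      intro j hj
      rw [mem_filter] at hj
      rw [hj.2]
    rw [sum_congr rfl h2, sum_const, nsmul_eq_mul]
    apply mul_le_mul_of_nonneg_right _ (le_trans zero_le_one (Gm_one C hC e))
    have h3 : (J.filter (fun j : ℕ => (a - (j : ℤ)).natAbs = e)).card ≤ 2 := by
      refine (card_le_card (t := {(a - e).toNat, (a + e).toNat}) ?_).trans card_le_two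
      intro j hj
      rw [mem_filter] at hj
      rw [mem_insert, mem_singleton]
      omega
    exact_mod_cast h3
  refine (sum_le_sum h1).trans ?_
  rw [← mul_sum]
  apply mul_le_mul_of_nonneg_left _ (by norm_num)
  exact avg C hC (X + 2)

theorem sum_all (W b X : ℕ) {m : ℕ} (hm : 0 < m) (t : Fin m → ℕ) (ht : ∀ i, W * t i < X)
    (J : Finset ℕ) (hJ : ∀ j ∈ J, j < X ∧ ∀ i, ee3 W b t (b + j) i ≠ 0) :
    ∑ j ∈ J, ∏ i, Gm 4 (ee3 W b t (b + j) i) ≤
      (m * 3) * (2 * (((X + 2 : ℕ) : ℝ) * Real.exp (2 * 5 ^ (m * 3)))) := by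
  classical
  have hcard : Fintype.card (Fin m × Fin 3) = m * 3 := by
    rw [Fintype.card_prod, Fintype.card_fin, Fintype.card_fin]
  have h1 : ∀ j ∈ J, ∏ i, Gm 4 (ee3 W b t (b + j) i) ≤
      ∑ i, Gm (5 ^ (m * 3)) (ee3 W b t (b + j) i) := by
    intro j _
    have h2 := prod_le_sum (ι := Fin m × Fin 3) ⟨(⟨0, hm⟩, 0)⟩
      (fun i => Gm 4 (ee3 W b t (b + j) i)) (fun i => Gm_one 4 (by norm_num) _)
    refine h2.trans ?_
    rw [hcard]
    exact sum_le_sum fun i _ => Gm_pow (m * 3) _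
  refine (sum_le_sum h1).trans ?_
  rw [sum_comm]
  have h3 : ∀ i : Fin m × Fin 3, ∑ j ∈ J, Gm (5 ^ (m * 3)) (ee3 W b t (b + j) i) ≤
      2 * (((X + 2 : ℕ) : ℝ) * Real.exp (2 * 5 ^ (m * 3))) := by
    intro i
    have e1 : ∀ j : ℕ, ee3 W b t (b + j) i = (((W * t i.1 : ℕ) : ℤ) + sg i.2 - (j : ℤ)).natAbs := by
      intro j
      unfold ee3
      congr 1
      push_cast
      ring
    have hsg : |sg i.2| ≤ 2 := by
      unfold sg
      split_ifs <;> norm_num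
    rw [abs_le] at hsg
    have hti := ht i.1
    simp only [e1]
    have e2 := fun j hj => (hJ j hj)
    apply sum_one (5 ^ (m * 3)) (by positivity) X (((W * t i.1 : ℕ) : ℤ) + sg i.2)
    · rw [abs_le]
      omega
    · intro j hj
      obtain ⟨g1, g2⟩ := hJ j hj
      have g3 := g2 i
      rw [e1 j] at g3
      refine ⟨g1, by omega, by omega⟩
  calc ∑ i : Fin m × Fin 3, ∑ j ∈ J, Gm (5 ^ (m * 3)) (ee3 W b t (b + j) i)
      ≤ ∑ _i : Fin m × Fin 3, 2 * (((X + 2 : ℕ) : ℝ) * Real.exp (2 * 5 ^ (m * 3))) :=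
        sum_le_sum fun i _ => h3 i
    _ = _ := by
        rw [sum_const, card_univ, hcard, nsmul_eq_mul]
        push_cast
        ring

theorem mod_OmB (W b : ℕ) {m : ℕ} (t : Fin m → ℕ) (β p x : ℕ)
    (h1 : ∀ i, ¬ (p : ℤ) ∣ F2 ((W * (x + t i) + b : ℕ) : ℤ))
    (h2 : ¬ (p : ℤ) ∣ F2 ((W * x + β : ℕ) : ℤ)) : x % p ∉ OmB W b t β p := by
  classical
  have hx : (p : ℤ) ∣ (x : ℤ) - ((x % p : ℕ) : ℤ) := by
    have h3 := Nat.div_add_mod x p
    refine ⟨((x / p : ℕ) : ℤ), ?_⟩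
    have h4 : (x : ℤ) = p * ((x / p : ℕ) : ℤ) + ((x % p : ℕ) : ℤ) := by exact_mod_cast h3.symm
    linarith
  unfold OmB OmC R2
  rw [mem_union, mem_filter, mem_filter]
  rintro (⟨_, i, hi⟩ | ⟨_, hj⟩)
  · apply h1 i
    refine (per_dvd (F2_per p) ?_).2 hi
    have e : ((W * (x + t i) + b : ℕ) : ℤ) - ((W * (x % p + t i) + b : ℕ) : ℤ) =
        ((x : ℤ) - ((x % p : ℕ) : ℤ)) * W := by
      push_cast
      ring
    rw [e]
    exact hx.mul_right _
  · apply h2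
    refine (per_dvd (F2_per p) ?_).2 hj
    have e : ((W * x + β : ℕ) : ℤ) - ((W * (x % p) + β : ℕ) : ℤ) =
        ((x : ℤ) - ((x % p : ℕ) : ℤ)) * W := by
      push_cast
      ring
    rw [e]
    exact hx.mul_right _

open Classical in
/-- the arguments with one more pair -/
noncomputable def BadS (W b z X M L : ℕ) {m : ℕ} (t : Fin m → ℕ) : Finset ℕ :=
  (Ioc M (M + L)).filter (fun x =>
    (∀ p ∈ PS W z, ∀ i, ¬ (p : ℤ) ∣ F2 ((W * (x + t i) + b : ℕ) : ℤ)) ∧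
    ∃ j < X, (∀ i, ee3 W b t (b + j) i ≠ 0) ∧
      ∀ p ∈ PS W z, ¬ (p : ℤ) ∣ F2 ((W * x + (b + j) : ℕ) : ℤ))

open Classical in
theorem bad_le : ∃ C : ℕ, 1 ≤ C ∧ ∀ (m W : ℕ), 0 < m → 2 ∣ W ∧ 3 ∣ W →
    (∀ p : ℕ, p.Prime → p ≤ C * (2 * m + 2 + 1) → p ∣ W) →
    ∀ (J z M L b X : ℕ) (t : Fin m → ℕ), z ≤ 2 ^ 2 ^ J → (∀ i, W * t i < X) →
    ((BadS W b z X M L t).card : ℝ) ≤
      2 * (L * ((∏ p ∈ PS W z, (1 - (rhoT F2 W b t p : ℝ) / p)) *
        (∏ p ∈ PS W z, (1 - (2 : ℕ) / (p : ℝ))))) *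
        ((m * 3) * (2 * (((X + 2 : ℕ) : ℝ) * Real.exp (2 * 5 ^ (m * 3))))) +
      X * ((2 : ℝ) ^ 2 ^ J) ^ (C * (C * (2 * m + 2 + 1))) := by
  obtain ⟨C, hC1, hC⟩ := c1g
  refine ⟨C, hC1, ?_⟩
  intro m W hm h3 hWp J z M L b X t hz ht
  have hWm : ∀ p : ℕ, p.Prime → p ≤ 2 * m + 2 → p ∣ W := by
    intro p hp hpm
    apply hWp p hp
    have : 1 * (2 * m + 2 + 1) ≤ C * (2 * m + 2 + 1) := Nat.mul_le_mul_right _ hC1
    omega
  obtain ⟨Jx, hJx⟩ : ∃ Jx, Jx = (range X).filter (fun j => ∀ i, ee3 W b t (b + j) i ≠ 0) := ⟨_, rfl⟩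
  have hsub : BadS W b z X M L t ⊆ Jx.biUnion (fun j => (Ioc M (M + L)).filter
      (fun x => ∀ p ∈ PS W z, x % p ∉ OmB W b t (b + j) p)) := by
    intro x hx
    unfold BadS at hx
    rw [mem_filter] at hx
    obtain ⟨h1, h2, j, hj, h4, h5⟩ := hx
    rw [mem_biUnion]
    refine ⟨j, ?_, ?_⟩
    · rw [hJx, mem_filter, mem_range]
      exact ⟨hj, h4⟩
    · rw [mem_filter]
      exact ⟨h1, fun p hp => mod_OmB W b t (b + j) p x (h2 p hp) (h5 p hp)⟩
  set V := ∏ p ∈ PS W z, (1 - (rhoT F2 W b t p : ℝ) / p) with hV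
  set v := ∏ p ∈ PS W z, (1 - (2 : ℕ) / (p : ℝ)) with hv
  set E := ((2 : ℝ) ^ 2 ^ J) ^ (C * (C * (2 * m + 2 + 1))) with hE
  have hE0 : 0 ≤ E := by positivity
  have hmem : ∀ p ∈ PS W z, p.Prime ∧ ¬ p ∣ W := by
    intro p hp
    unfold PS at hp
    rw [mem_filter, mem_Icc] at hp
    exact hp.2
  have hone : ∀ j ∈ Jx, (((Ioc M (M + L)).filter
      (fun x => ∀ p ∈ PS W z, x % p ∉ OmB W b t (b + j) p)).card : ℝ) ≤
      2 * (L * (V * v)) * (∏ i, Gm 4 (ee3 W b t (b + j) i)) + E := by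
    intro j hj
    rw [hJx, mem_filter] at hj
    obtain ⟨g1, g2⟩ := prod_B W b z t (b + j) h3 hWm hj.2
    have g3 := hC (2 * m + 2) (C * (2 * m + 2 + 1)) W le_rfl hWp J z M L hz
      (fun p => OmB W b t (b + j) p) (fun p hp => ⟨OmB_le W b t (b + j) p (hmem p hp).1 (hmem p hp).2,
        fun c hc => by
          unfold OmB OmC R2 at hc
          rw [mem_union, mem_filter, mem_filter, mem_range] at hc
          rcases hc with hc | hc
          · exact hc.1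
          · exact hc.1⟩)
    rw [abs_le] at g3
    have g4 := g3.2
    have hhalf : (1 / 2 : ℝ) ^ (C * (2 * m + 2 + 1)) ≤ 1 := pow_le_one₀ (by norm_num) (by norm_num)
    set Q := ∏ p ∈ PS W z, (1 - ((OmB W b t (b + j) p).card : ℝ) / p) with hQ
    have hLQ : 0 ≤ (L : ℝ) * Q := mul_nonneg (Nat.cast_nonneg _) g1
    have g5 : (1 / 2 : ℝ) ^ (C * (2 * m + 2 + 1)) * ((L : ℝ) * Q) ≤ 1 * ((L : ℝ) * Q) :=
      mul_le_mul_of_nonneg_right hhalf hLQ
    have g6 : (L : ℝ) * Q ≤ L * (V * v * ∏ i, Gm 4 (ee3 W b t (b + j) i)) :=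
      mul_le_mul_of_nonneg_left g2 (Nat.cast_nonneg _)
    calc (((Ioc M (M + L)).filter
      (fun x => ∀ p ∈ PS W z, x % p ∉ OmB W b t (b + j) p)).card : ℝ) ≤ 2 * ((L : ℝ) * Q) + E := by
          linarith
      _ ≤ 2 * (L * (V * v * ∏ i, Gm 4 (ee3 W b t (b + j) i))) + E := by linarith
      _ = _ := by ring
  have h0 : 0 ≤ 2 * ((L : ℝ) * (V * v)) := by
    have g1 : 0 ≤ V := by
      apply prod_nonneg
      intro p hp
      obtain ⟨q1, q2⟩ := hmem p hp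
      have hp0 : (0 : ℝ) < p := by exact_mod_cast q1.pos
      have q3 := OmC_le W b t p q1 q2
      have q4 : 2 * m + 2 < p := by
        by_contra hcon
        exact q2 (hWm p q1 (not_lt.1 hcon))
      rw [sub_nonneg, div_le_one hp0]
      exact_mod_cast (by omega : rhoT F2 W b t p ≤ p)
    have g2 : 0 ≤ v := by
      apply prod_nonneg
      intro p hp
      obtain ⟨q1, q2⟩ := hmem p hp
      have hp0 : (0 : ℝ) < p := by exact_mod_cast q1.pos
      rw [sub_nonneg, div_le_one hp0]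
      exact_mod_cast q1.two_le
    positivity
  calc ((BadS W b z X M L t).card : ℝ) ≤ ((Jx.biUnion (fun j => (Ioc M (M + L)).filter
      (fun x => ∀ p ∈ PS W z, x % p ∉ OmB W b t (b + j) p))).card : ℝ) := by
        exact_mod_cast card_le_card hsub
    _ ≤ ∑ j ∈ Jx, (((Ioc M (M + L)).filter
      (fun x => ∀ p ∈ PS W z, x % p ∉ OmB W b t (b + j) p)).card : ℝ) := by
        exact_mod_cast card_biUnion_le
    _ ≤ ∑ j ∈ Jx, (2 * (L * (V * v)) * (∏ i, Gm 4 (ee3 W b t (b + j) i)) + E) := sum_le_sum hone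
    _ = 2 * (L * (V * v)) * (∑ j ∈ Jx, ∏ i, Gm 4 (ee3 W b t (b + j) i)) + Jx.card * E := by
        rw [sum_add_distrib, ← mul_sum, sum_const, nsmul_eq_mul]
    _ ≤ _ := by
        apply add_le_add
        · apply mul_le_mul_of_nonneg_left _ h0
          apply sum_all W b X hm t ht Jx
          intro j hj
          rw [hJx, mem_filter, mem_range] at hj
          exact hj
        · apply mul_le_mul_of_nonneg_right _ hE0
          have : Jx.card ≤ X := by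
            rw [hJx]
            exact (card_filter_le _ _).trans (le_of_eq (card_range X))
          exact_mod_cast this

end Pool.Agent.V8H2.MQ
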