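import Pool.Agent.Y852.RSZ.C1

/-!
The fundamental lemma count with arbitrary residue classes.
-/

set_option autoImplicit false

namespace Pool.Agent.V8H2.MQ

open Finset
open Pool.Agent.TH423.SH Pool.Agent.TH423.SH.FLIP
open Pool.Agent.Y677.RSZ Pool.Agent.Y852.RSZ

theorem c1g : ∃ C : ℕ, 1 ≤ C ∧ ∀ κ b W : ℕ, C * (κ + 1) ≤ b →
  (∀ p : ℕ, p.Prime → p ≤ C * (κ + 1) → p ∣ W) →
  ∀ J z M L : ℕ, z ≤ 2 ^ 2 ^ J → ∀ Om : ℕ → Finset ℕ,
  (∀ p ∈ PS W z, (Om p).card ≤ κ ∧ ∀ c ∈ Om p, c < p) →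
  |(((Ioc M (M + L)).filter (fun n => ∀ p ∈ PS W z, n % p ∉ Om p)).card : ℝ) -
      (L : ℝ) * ∏ p ∈ PS W z, (1 - ((Om p).card : ℝ) / p)| ≤
    (1 / 2 : ℝ) ^ b * ((L : ℝ) * ∏ p ∈ PS W z, (1 - ((Om p).card : ℝ) / p)) +
      ((2 : ℝ) ^ 2 ^ J) ^ (C * b) := by
  classical
  obtain ⟨C0, hC0, hF⟩ := fll
  refine ⟨2 * C0 + 4, by omega, ?_⟩
  intro κ b W hb hWp J z M L hzJ Om hOm
  set P := PS W z with hP
  have hPmem0 : ∀ p ∈ P, ¬ p ∣ W := by
    intro p hp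
    rw [hP, PS, mem_filter, mem_Icc] at hp
    exact hp.2.2
  have hPmem : ∀ p ∈ P, p.Prime ∧ (2 * C0 + 4) * (κ + 1) < p ∧ p ≤ 2 ^ 2 ^ J := by
    intro p hp
    rw [hP, PS, mem_filter, mem_Icc] at hp
    refine ⟨hp.2.1, ?_, hp.1.2.trans hzJ⟩
    by_contra hcon
    exact hp.2.2 (hWp p hp.2.1 (not_lt.1 hcon))
  have hC : C0 * (κ + 1) ≤ (2 * C0 + 4) * (κ + 1) := Nat.mul_le_mul_right _ (by omega)
  have h1 := hF κ b J ((2 * C0 + 4) * (κ + 1)) P (fun p => 1 / (p : ℝ)) Om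
    (hC.trans hb) hC hPmem (fun p hp => (hOm p hp).1)
    (by
      intro p hp
      have hp2 : (2 : ℝ) ≤ p := by exact_mod_cast (hPmem p hp).1.two_le
      refine ⟨by positivity, ?_⟩
      apply one_div_le_one_div_of_le (by linarith)
      linarith)
    (Ioc M (M + L)) (fun _ => 1) (L : ℝ) (fun _ => 1)
    (fun _ _ => zero_le_one) (Nat.cast_nonneg L) (fun _ => zero_le_one)
    (by
      intro T hT _ c hc
      obtain ⟨r, hr⟩ := crt_set 1 0 c T (fun p hp => ⟨(hPmem p (hT hp)).1, fun h =>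
        (hPmem p (hT hp)).1.one_lt.ne' (Nat.dvd_one.1 h)⟩)
        (fun p hp => (hOm p (hT hp)).2 _ (hc p hp))
      rw [sum_const, nsmul_eq_mul, mul_one]
      have e1 : (Ioc M (M + L)).filter (fun n => ∀ p ∈ T, n % p = c p) =
          (Ioc M (M + L)).filter (fun n => n ≡ r [MOD 1 * ∏ p ∈ T, p]) :=
        filter_congr fun n _ => by
          rw [← hr n]
          simp [Nat.mod_one]
      have hpos : 0 < 1 * ∏ p ∈ T, p :=
        Nat.mul_pos one_pos (Finset.prod_pos fun p hp => (hPmem p (hT hp)).1.pos)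
      have h2 := cnt_Ioc M (M + L) (1 * ∏ p ∈ T, p) r (by omega) hpos
      rw [e1]
      have e2 : (((M + L : ℕ) : ℝ) - M) / ((1 * ∏ p ∈ T, p : ℕ) : ℝ) =
          (L : ℝ) * ∏ p ∈ T, 1 / (p : ℝ) := by
        push_cast
        rw [one_mul, div_eq_mul_inv _ (∏ p ∈ T, (p : ℝ)), ← prod_inv_distrib,
          show ((M : ℝ) + L - M) = L by ring]
        simp only [one_div]
      rw [e2] at h2
      exact h2)
  have e3 : ∏ p ∈ P, (1 - ((Om p).card : ℝ) * (1 / (p : ℝ))) =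
      ∏ p ∈ P, (1 - ((Om p).card : ℝ) / p) := by
    apply prod_congr rfl
    intro p _
    rw [mul_one_div]
  rw [e3, sum_const, nsmul_eq_mul, mul_one] at h1
  set Y : ℕ := (2 ^ 2 ^ J) ^ (C0 * b) with hY
  suffices hs : ((J : ℝ) + 2) * ∑ T ∈ P.powerset.filter (fun T : Finset ℕ => ∏ p ∈ T, p ≤ Y),
      (κ : ℝ) ^ T.card * 1 ≤ ((2 : ℝ) ^ 2 ^ J) ^ ((2 * C0 + 4) * b) from
    h1.trans (add_le_add le_rfl hs)
  have hterm : ∀ T ∈ P.powerset.filter (fun T : Finset ℕ => ∏ p ∈ T, p ≤ Y),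
      ((κ : ℝ) ^ T.card * 1) ≤ (Y : ℝ) := by
    intro T hT
    rw [mem_filter, mem_powerset] at hT
    rw [mul_one]
    have h2 : κ ^ T.card ≤ ∏ p ∈ T, p := by
      rw [← prod_const]
      apply prod_le_prod'
      intro p hp
      have h3 := (hPmem p (hT.1 hp)).2.1
      have h4 : κ + 1 ≤ (2 * C0 + 4) * (κ + 1) := Nat.le_mul_of_pos_left _ (by omega)
      omega
    exact_mod_cast h2.trans hT.2
  have hJ : (J : ℝ) + 2 ≤ ((2 : ℝ) ^ 2 ^ J) ^ 2 := by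
    have h2 : J + 2 ≤ (2 ^ 2 ^ J) ^ 2 := by
      have h3 : J < 2 ^ J := Nat.lt_two_pow_self
      have h4 : 2 ^ J < 2 ^ 2 ^ J := Nat.lt_two_pow_self
      have h5 : 2 ≤ 2 ^ 2 ^ J := by
        calc 2 = 2 ^ 1 := rfl
          _ ≤ 2 ^ 2 ^ J := Nat.pow_le_pow_right (by norm_num) (Nat.one_le_two_pow)
      nlinarith
    exact_mod_cast h2
  have hb4 : 4 ≤ 4 * b := by
    have : 1 ≤ (2 * C0 + 4) * (κ + 1) := Nat.mul_pos (by omega) (by omega)
    omega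
  have hone : (1 : ℝ) ≤ (2 : ℝ) ^ 2 ^ J := one_le_pow₀ (by norm_num)
  calc ((J : ℝ) + 2) * ∑ T ∈ P.powerset.filter (fun T : Finset ℕ => ∏ p ∈ T, p ≤ Y),
        (κ : ℝ) ^ T.card * 1
      ≤ ((J : ℝ) + 2) * ((Y : ℝ) ^ 2) := by
        apply mul_le_mul_of_nonneg_left _ (by positivity)
        calc ∑ T ∈ P.powerset.filter (fun T : Finset ℕ => ∏ p ∈ T, p ≤ Y), (κ : ℝ) ^ T.card * 1
            ≤ ∑ _T ∈ P.powerset.filter (fun T : Finset ℕ => ∏ p ∈ T, p ≤ Y), (Y : ℝ) :=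
              sum_le_sum hterm
          _ = ((P.powerset.filter (fun T : Finset ℕ => ∏ p ∈ T, p ≤ Y)).card : ℝ) * Y := by
              rw [sum_const, nsmul_eq_mul]
          _ ≤ (Y : ℝ) * Y := by
              apply mul_le_mul_of_nonneg_right _ (by positivity)
              exact_mod_cast Pool.Agent.TH423.SH.FLIP.card_le P (fun p hp => (hPmem p hp).1) Y
          _ = (Y : ℝ) ^ 2 := by ring
    _ ≤ ((2 : ℝ) ^ 2 ^ J) ^ 2 * (Y : ℝ) ^ 2 := by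
        apply mul_le_mul_of_nonneg_right hJ (by positivity)
    _ = ((2 : ℝ) ^ 2 ^ J) ^ (2 + 2 * (C0 * b)) := by
        rw [hY]
        push_cast
        rw [pow_add, mul_comm 2 (C0 * b), pow_mul _ (C0 * b) 2]
    _ ≤ ((2 : ℝ) ^ 2 ^ J) ^ ((2 * C0 + 4) * b) := by
        apply pow_le_pow_right₀ hone
        have : (2 * C0 + 4) * b = 2 * (C0 * b) + 4 * b := by ring
        omega

end Pool.Agent.V8H2.MQ
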