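import Pool.Agent.V8H2.MQ.Runs
import Pool.Agent.V8H2.MQ.Bad

/-!
Many windows of length `η (log N) ^ 2` with several almost prime twins in one residue class and no others.
-/

set_option autoImplicit false

namespace Pool.Agent.V8H2.MQ

open Finset Filter
open Pool.Agent.R498.MT
open Pool.Agent.R498.MP
open Pool.Agent.Y677.RSZ (rt Sys rhoT per_mod ev_log poly_all)
open Pool.Agent.TH423.SH (PS PIj)
open Pool.Agent.W23.DC
open Pool.Agent.Y882
open Pool.Agent.V8H2.QW (GG GG_pos GG_le fac_pos)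

theorem F2_sys : ∃ g : ℕ, Sys g F2 := by
  have ev : ∀ n : ℤ, (Polynomial.X * (Polynomial.X + 2) : Polynomial ℤ).eval n = F2 n := by
    intro n
    simp [F2]
  obtain ⟨g, hg⟩ := poly_all (Polynomial.X * (Polynomial.X + 2) : Polynomial ℤ)
    (by
      intro h
      have h1 := ev 1
      rw [h] at h1
      simp [F2] at h1)
    (fun p hp => by
      refine ⟨if p = 3 then 2 else 1, ?_⟩
      rw [ev]
      unfold F2
      split_ifs with h3
      · rw [h3]
        norm_num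
      · norm_num
        intro h
        have h1 : p ∣ 3 := by exact_mod_cast h
        exact h3 ((Nat.prime_dvd_prime_iff_eq hp Nat.prime_three).1 h1))
  refine ⟨g, ?_⟩
  have e : (fun n : ℤ => (Polynomial.X * (Polynomial.X + 2) : Polynomial ℤ).eval n) = F2 :=
    funext ev
  rwa [e] at hg

/-- the slots of a set -/
noncomputable def tT (k : ℕ) (T : Finset ℕ) : Fin (2 ^ k) → ℕ :=
  if h : T.card = 2 ^ k then T.orderEmbOfFin h else fun i => i

theorem tT_inj (k : ℕ) (T : Finset ℕ) : Function.Injective (tT k T) := by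
  unfold tT
  split_ifs with h
  · exact (T.orderEmbOfFin h).injective
  · exact Fin.val_injective

theorem tT_mem (k : ℕ) (T : Finset ℕ) (h : T.card = 2 ^ k) (i : Fin (2 ^ k)) : tT k T i ∈ T := by
  unfold tT
  rw [dif_pos h]
  exact Finset.orderEmbOfFin_mem T h i

theorem tT_sur (k : ℕ) (T : Finset ℕ) (h : T.card = 2 ^ k) (j : ℕ) (hj : j ∈ T) :
    ∃ i, tT k T i = j := by
  unfold tT
  rw [dif_pos h]
  have : j ∈ Set.range (T.orderEmbOfFin h) := by
    rw [Finset.range_orderEmbOfFin]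
    exact hj
  exact this

/-- the number of the sets -/
theorem choose_low (H K : ℕ) (hK : 0 < K) (hH : 2 * K ≤ H) :
    ((H : ℝ) / 2) ^ K / K.factorial ≤ ((H.choose K : ℕ) : ℝ) := by
  refine le_trans ?_ (Nat.pow_le_choose K H)
  apply div_le_div_of_nonneg_right _ (by positivity)
  apply pow_le_pow_left₀ (by positivity)
  have h1 : K ≤ H + 1 := by omega
  rw [Nat.cast_sub h1]
  have h2 : 2 * (K : ℝ) ≤ H := by exact_mod_cast hH
  push_cast
  linarith

/-- the almost prime twins of `(N, 2 N]` -/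
noncomputable def Sset (δ : ℝ) (N : ℕ) : Finset ℕ := by
  classical
  exact (Ioc N (2 * N)).filter (fun p => p.Prime ∧ ∀ l : ℕ, l.Prime → l ∣ p + 2 → (N : ℝ) ^ δ ≤ l)

theorem mem_Sset (δ : ℝ) (N p : ℕ) : p ∈ Sset δ N ↔ N < p ∧ p ≤ 2 * N ∧ p.Prime ∧
    ∀ l : ℕ, l.Prime → l ∣ p + 2 → (N : ℝ) ^ δ ≤ l := by
  classical
  unfold Sset
  rw [mem_filter, mem_Ioc]
  tauto

theorem Sset_F2 (δ : ℝ) (hδ : δ ≤ 1) (N p : ℕ) (hN : 1 ≤ N) (h : p ∈ Sset δ N) (l : ℕ) (hl : l.Prime)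
    (hlN : (l : ℝ) < (N : ℝ) ^ δ) : ¬ (l : ℤ) ∣ F2 p := by
  rw [mem_Sset] at h
  obtain ⟨h1, h2, h3, h4⟩ := h
  intro hd
  rcases (F2_dvd hl _).1 hd with hd | hd
  · have h5 : l ∣ p := by exact_mod_cast hd
    have h6 := (Nat.prime_dvd_prime_iff_eq hl h3).1 h5
    have h7 : (N : ℝ) ^ δ ≤ N := by
      have : (1 : ℝ) ≤ N := by exact_mod_cast hN
      calc (N : ℝ) ^ δ ≤ (N : ℝ) ^ (1 : ℝ) := Real.rpow_le_rpow_of_exponent_le this hδ
        _ = N := Real.rpow_one _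
    have h8 : (l : ℝ) < N := by linarith
    have h9 : l < N := by exact_mod_cast h8
    omega
  · have h5 : l ∣ p + 2 := by exact_mod_cast hd
    have := h4 l hl h5
    linarith

theorem nX (C C' K X₀ : ℕ) (hC : 1 ≤ C) (hC' : 1 ≤ C') (hK : 1 ≤ K)
    (hX : X₀ = 3 * (C * C) + 4 + 9 * (C' * C')) :
    3 ≤ X₀ * (K + 1) ∧ C * (2 * K + 2 + 1) ≤ X₀ * (K + 1) ∧ C' * (2 + 1) ≤ X₀ * (K + 1) ∧
      4 * K ≤ X₀ * (K + 1) ∧ C' * (C' * (2 + 1)) ≤ X₀ * (K + 1) ∧
      C * (C * (2 * K + 2 + 1)) ≤ X₀ * (K + 1) := by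
  have hCC : C ≤ C * C := Nat.le_mul_of_pos_left _ hC
  have hCC' : C' ≤ C' * C' := Nat.le_mul_of_pos_left _ hC'
  have h1 : X₀ ≤ X₀ * (K + 1) := Nat.le_mul_of_pos_right _ (by omega)
  have h2 : 3 * (C * C) * (K + 1) ≤ X₀ * (K + 1) := Nat.mul_le_mul_right _ (by omega)
  have h3 : 4 * (K + 1) ≤ X₀ * (K + 1) := Nat.mul_le_mul_right _ (by omega)
  have h4 : C * (2 * K + 2 + 1) ≤ C * C * (2 * K + 2 + 1) := Nat.mul_le_mul_right _ hCC
  have h5 : C * C * (2 * K + 2 + 1) ≤ 3 * (C * C) * (K + 1) := by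
    have e1 : 3 * (C * C) * (K + 1) = C * C * (3 * K + 3) := by ring
    rw [e1]
    exact Nat.mul_le_mul_left _ (by omega)
  have h6 : C * (C * (2 * K + 2 + 1)) = C * C * (2 * K + 2 + 1) := by ring
  have h7 : C' * (C' * (2 + 1)) = 3 * (C' * C') := by ring
  refine ⟨by omega, by omega, by omega, by omega, by omega, by omega⟩

theorem eps_bd (ε a X : ℝ) (hε : 0 < ε) (h1 : a ≤ X) (h2 : X * ε ≤ 1 / 12) : 2 * ε * a ≤ 1 / 2 := by
  have h3 : a * ε ≤ X * ε := mul_le_mul_of_nonneg_right h1 hε.le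
  linarith

theorem log_sq_le (D η l : ℝ) (hη : 0 < η) (hl : 1 ≤ l) (h : D ≤ l * η) : D ≤ η * l ^ 2 := by
  have h1 : l * 1 ≤ l * l := mul_le_mul_of_nonneg_left hl (by linarith)
  have h2 : η * (l * 1) ≤ η * (l * l) := mul_le_mul_of_nonneg_left h1 hη.le
  calc D ≤ l * η := h
    _ = η * (l * 1) := by ring
    _ ≤ η * (l * l) := h2
    _ = η * l ^ 2 := by ring

open Classical in
theorem windows (m q a : ℕ) (hq : 0 < q) (ha : Nat.Coprime (a * (a + 2)) q) :
    ∃ (W b : ℕ) (δ C₃ : ℝ), 0 < W ∧ 6 ∣ W ∧ q ∣ W ∧ b ≤ 2 * W ∧ b ≡ a [MOD q] ∧ 0 < δ ∧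
      δ ≤ 1 / 24 ∧ 0 < C₃ ∧
      (∀ᶠ N : ℕ in atTop, ((Sset δ N).card : ℝ) ≤ C₃ * (N / Real.log N ^ 2)) ∧
      ∀ η : ℝ, 0 < η → ∃ c : ℝ, 0 < c ∧ ∀ᶠ N : ℕ in atTop, ∃ (H : ℕ) (U : Finset ℕ),
      ((W * H : ℕ) : ℝ) ≤ η * Real.log N ^ 2 ∧ 0 < H ∧ c * N ≤ U.card ∧
      ∀ x ∈ U, N < W * x ∧ W * x + b + W * H ≤ 2 * N ∧
        ∃ T ⊆ range H, m < (T.filter (fun j => (W * (x + j) + b).Prime)).card ∧
          (∀ j ∈ T, ∀ p : ℕ, p.Prime → (p : ℝ) < (N : ℝ) ^ δ →
            ¬ (p : ℤ) ∣ F2 ((W * (x + j) + b : ℕ) : ℤ)) ∧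
          ∀ j < W * H, (∀ p : ℕ, p.Prime → (p : ℝ) < (N : ℝ) ^ δ → ¬ p ∣ W →
            ¬ (p : ℤ) ∣ F2 ((W * x + (b + j) : ℕ) : ℤ)) →
            ∃ i ∈ T, j = W * i ∨ j = W * i + 2 ∨ j + 2 = W * i := by
  obtain ⟨C, hC1, hbad⟩ := bad_le
  obtain ⟨C', hC'1, hup⟩ := c1g
  obtain ⟨g, hg⟩ := F2_sys
  have hFid : ∀ p : ℕ, p.Prime → ∀ n : ℤ, (p : ℤ) ∣ n → (p : ℤ) ∣ F2 n := by
    intro p _ n hn
    unfold F2
    exact hn.mul_right _
  obtain ⟨X₀, hX₀⟩ : ∃ X₀, X₀ = 3 * (C * C) + 4 + 9 * (C' * C') := ⟨_, rfl⟩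
  obtain ⟨k, W₀, W, hW0, hW₀sq, hW₀0, hWeq, hWX, hWp, hgW, ε₁, c, hε, hε24, hεX, hc, hcore, -⟩ :=
    coreU F2 g hg hFid m q X₀ hq
  have hWX' : ∀ p : ℕ, p.Prime → p ≤ X₀ * (2 ^ k + 1) → p ∣ W := by
    intro p hp hpX
    rw [hWeq]
    exact (hWX p hp hpX).mul_left _
  have hk1 : 1 ≤ 2 ^ k := Nat.one_le_two_pow
  obtain ⟨x1, x2, x3, x4, x5, x6⟩ := nX C C' (2 ^ k) X₀ hC1 hC'1 hk1 hX₀
  have h2W : 2 ∣ W := hWX' 2 Nat.prime_two (by omega)
  have h3W : 3 ∣ W := hWX' 3 Nat.prime_three (by omega)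
  have h6W : 6 ∣ W := by
    have : Nat.Coprime 2 3 := by norm_num
    exact this.mul_dvd_of_dvd_of_dvd h2W h3W
  have hWC : ∀ p : ℕ, p.Prime → p ≤ C * (2 * 2 ^ k + 2 + 1) → p ∣ W := by
    intro p hp hpC
    exact hWX' p hp (hpC.trans x2)
  have hWC' : ∀ p : ℕ, p.Prime → p ≤ C' * (2 + 1) → p ∣ W := by
    intro p hp hpC
    exact hWX' p hp (hpC.trans x3)
  have hW4 : ∀ p : ℕ, p.Prime → p ≤ 4 * 2 ^ k → p ∣ W := by
    intro p hp hpC
    exact hWX' p hp (hpC.trans x4)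
  obtain ⟨b, hbW, hbq, hb⟩ := exbq hg q W₀ W a hq hW₀0 hW₀sq hWeq (fun p hp hpq h => by
    have h1 : p ∣ a * (a + 2) := by
      unfold F2 at h
      exact_mod_cast h
    have h2 := Nat.dvd_gcd h1 hpq
    rw [ha] at h2
    exact hp.one_lt.ne' (Nat.dvd_one.1 h2))
  obtain ⟨c₁, c₂, hc₁, hc₂, hGG⟩ := GG_size ε₁ hε
  -- the upper bound for the product of one pair
  obtain ⟨CW, hCW⟩ : ∃ CW : ℝ, CW = (∏ p ∈ W.primeFactors, (1 - 1 / (p : ℝ)) ^ 2)⁻¹ := ⟨_, rfl⟩
  have hCW0 : 0 < CW := by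
    rw [hCW]
    apply inv_pos.2
    exact prod_pos fun p hp => pow_pos (fac_pos p (Nat.prime_of_mem_primeFactors hp)).1 _
  have hPSmem : ∀ z : ℕ, ∀ p ∈ PS W z, p.Prime ∧ p ≤ z ∧ ¬ p ∣ W := by
    intro z p hp
    unfold PS at hp
    rw [mem_filter, mem_Icc] at hp
    exact ⟨hp.2.1, hp.1.2, hp.2.2⟩
  have hv : ∀ᶠ Y : ℕ in atTop, ∀ z : ℕ, (z : ℝ) < (Y : ℝ) ^ ε₁ → (Y : ℝ) ^ ε₁ ≤ z + 1 →
      0 ≤ ∏ p ∈ PS W z, (1 - (2 : ℕ) / (p : ℝ)) ∧
      ∏ p ∈ PS W z, (1 - (2 : ℕ) / (p : ℝ)) ≤ CW * c₂ ^ 2 / Real.log Y ^ 2 := by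
    filter_upwards [hGG] with Y hY z hz1 hz2
    obtain ⟨g1, g2⟩ := hY z hz1 hz2
    refine ⟨?_, ?_⟩
    · apply prod_nonneg
      intro p hp
      obtain ⟨q1, q2, q3⟩ := hPSmem z p hp
      have hp0 : (0 : ℝ) < p := by exact_mod_cast q1.pos
      rw [sub_nonneg, div_le_one hp0]
      exact_mod_cast q1.two_le
    · refine (prod_up 2 W z hW0 (fun p hp hp2 => ?_)).trans ?_
      · have h5 := hp.two_le
        have h6 : p = 2 := by omega
        rw [h6]
        exact h2W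
      · rw [← hCW, mul_div_assoc, ← div_pow]
        apply mul_le_mul_of_nonneg_left _ hCW0.le
        exact pow_le_pow_left₀ (GG_pos _).le g2 2
  -- the lower bound for the product of the slots
  obtain ⟨κ, hκ⟩ : ∃ κ, κ = 2 * 2 ^ k := ⟨_, rfl⟩
  obtain ⟨cV, hcV⟩ : ∃ cV : ℝ, cV = Real.exp (-(2 * (κ : ℝ) ^ 2)) * c₁ ^ κ := ⟨_, rfl⟩
  have hcV0 : 0 < cV := by rw [hcV]; positivity
  have hVlow : ∀ᶠ Y : ℕ in atTop, ∀ z : ℕ, (z : ℝ) < (Y : ℝ) ^ ε₁ → (Y : ℝ) ^ ε₁ ≤ z + 1 →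
      ∀ t : Fin (2 ^ k) → ℕ, cV / Real.log Y ^ κ ≤ Vp F2 W b z t := by
    filter_upwards [hGG, eventually_ge_atTop 3] with Y hY hY3 z hz1 hz2 t
    obtain ⟨g1, g2⟩ := hY z hz1 hz2
    have hlY : 0 < Real.log Y := Real.log_pos (by
      have : (3 : ℝ) ≤ Y := by exact_mod_cast hY3
      linarith)
    have h1 := prod_low κ z (PS W z) (fun p => (rhoT F2 W b t p : ℝ)) (by
      intro p hp
      obtain ⟨q1, q2, q3⟩ := hPSmem z p hp
      refine ⟨q1, q2, ?_, Nat.cast_nonneg _, ?_⟩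
      · by_contra hcon
        exact q3 (hW4 p q1 (by rw [hκ] at hcon; omega))
      · have := OmC_le W b t p q1 q3
        rw [hκ]
        exact_mod_cast this)
    unfold Vp
    refine le_trans ?_ h1
    rw [hcV, mul_div_assoc, ← div_pow]
    apply mul_le_mul_of_nonneg_left _ (Real.exp_pos _).le
    exact pow_le_pow_left₀ (by positivity) g1 κ
  refine ⟨W, b, ε₁, 2 * (CW * c₂ ^ 2) + 1, hW0, h6W, by rw [hWeq]; exact dvd_mul_right _ _, by omega,
    hbq, hε, hε24, by positivity, ?_, ?_⟩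
  · -- the number of the almost prime twins
    obtain ⟨Y2, hY2⟩ := exJ ε₁ hε
    have hlog := ev_log 2 1 (1 / 2) (by norm_num)
    filter_upwards [hv, hlog, eventually_ge_atTop (max Y2 3)] with N hN hNlog hNY
    have hN3 : 3 ≤ N := (le_max_right _ _).trans hNY
    have hNr : (3 : ℝ) ≤ N := by exact_mod_cast hN3
    have hN0 : (0 : ℝ) < N := by linarith
    have hN1 : (1 : ℝ) ≤ N := by linarith
    have hlN : 0 < Real.log N := Real.log_pos (by linarith)
    obtain ⟨J, hJ1, hJ2⟩ := hY2 N ((le_max_left _ _).trans hNY)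
    obtain ⟨z, hz⟩ : ∃ z : ℕ, z + 1 = ⌈(N : ℝ) ^ ε₁⌉₊ := by
      have : 1 ≤ ⌈(N : ℝ) ^ ε₁⌉₊ := Nat.ceil_pos.2 (by positivity)
      exact ⟨⌈(N : ℝ) ^ ε₁⌉₊ - 1, by omega⟩
    have hz1 : (z : ℝ) < (N : ℝ) ^ ε₁ := by
      have h1 := Nat.ceil_lt_add_one (show 0 ≤ (N : ℝ) ^ ε₁ by positivity)
      rw [← hz] at h1
      push_cast at h1
      linarith
    have hz2 : (N : ℝ) ^ ε₁ ≤ z + 1 := by
      have h1 := Nat.le_ceil ((N : ℝ) ^ ε₁)
      rw [← hz] at h1
      push_cast at h1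
      exact h1
    obtain ⟨g1, g2⟩ := hN z hz1 hz2
    have hzJ : z ≤ 2 ^ 2 ^ J := by
      have : (z : ℝ) < 2 ^ 2 ^ J := hz1.trans_le hJ1
      have h2 : z < 2 ^ 2 ^ J := by exact_mod_cast this
      exact h2.le
    have hOmcard : ∀ p ∈ PS W z, (({0, p - 2} : Finset ℕ).card) = 2 := by
      intro p hp
      obtain ⟨q1, q2, q3⟩ := hPSmem z p hp
      rw [card_pair]
      intro h
      have h5 := q1.two_le
      have h6 : p = 2 := by omega
      rw [h6] at q3
      exact q3 h2W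
    have g3 := hup 2 (C' * (2 + 1)) W le_rfl hWC' J z N N hzJ (fun p => {0, p - 2})
      (fun p hp => ⟨(hOmcard p hp).le, fun c hc => by
        obtain ⟨q1, q2, q3⟩ := hPSmem z p hp
        have := q1.two_le
        rw [mem_insert, mem_singleton] at hc
        rcases hc with rfl | rfl <;> omega⟩)
    have e1 : ∏ p ∈ PS W z, (1 - (((({0, p - 2} : Finset ℕ).card) : ℕ) : ℝ) / p) =
        ∏ p ∈ PS W z, (1 - (2 : ℕ) / (p : ℝ)) := by
      apply prod_congr rfl
      intro p hp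
      rw [hOmcard p hp]
    rw [e1] at g3
    have hsub : Sset ε₁ N ⊆ (Ioc N (N + N)).filter
        (fun n => ∀ p ∈ PS W z, n % p ∉ ({0, p - 2} : Finset ℕ)) := by
      intro n hn
      have hn' := (mem_Sset _ _ _).1 hn
      rw [mem_filter, mem_Ioc]
      refine ⟨⟨hn'.1, by omega⟩, ?_⟩
      intro p hp
      obtain ⟨q1, q2, q3⟩ := hPSmem z p hp
      have hpz : (p : ℝ) < (N : ℝ) ^ ε₁ := by
        have : (p : ℝ) ≤ z := by exact_mod_cast q2
        linarith
      have h5 := Sset_F2 ε₁ (by linarith) N n (by omega) hn p q1 hpz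
      intro hmem
      apply h5
      rw [F2_dvd q1]
      rw [mem_insert, mem_singleton] at hmem
      have h6 := Nat.div_add_mod n p
      rcases hmem with h | h
      · left
        exact_mod_cast Nat.dvd_of_mod_eq_zero h
      · right
        have h7 : p ∣ n + 2 := by
          rw [h] at h6
          refine ⟨n / p + 1, ?_⟩
          have := q1.two_le
          rw [mul_add, mul_one]
          omega
        exact_mod_cast h7
    have h1 : ((Sset ε₁ N).card : ℝ) ≤ (((Ioc N (N + N)).filter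
        (fun n => ∀ p ∈ PS W z, n % p ∉ ({0, p - 2} : Finset ℕ))).card : ℝ) := by
      exact_mod_cast card_le_card hsub
    rw [abs_le] at g3
    have g4 := g3.2
    have hhalf : (1 / 2 : ℝ) ^ (C' * (2 + 1)) ≤ 1 := pow_le_one₀ (by norm_num) (by norm_num)
    set v := ∏ p ∈ PS W z, (1 - (2 : ℕ) / (p : ℝ)) with hvdef
    have hNv : 0 ≤ (N : ℝ) * v := mul_nonneg hN0.le g1
    have g5 : (1 / 2 : ℝ) ^ (C' * (2 + 1)) * ((N : ℝ) * v) ≤ 1 * ((N : ℝ) * v) :=
      mul_le_mul_of_nonneg_right hhalf hNv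
    have g6 : (N : ℝ) * v ≤ N * (CW * c₂ ^ 2 / Real.log N ^ 2) :=
      mul_le_mul_of_nonneg_left g2 hN0.le
    have herr : ((2 : ℝ) ^ 2 ^ J) ^ (C' * (C' * (2 + 1))) ≤ N / Real.log N ^ 2 := by
      have h7 : ((2 : ℝ) ^ 2 ^ J) ^ (C' * (C' * (2 + 1))) ≤ (N : ℝ) ^ (1 / 2 : ℝ) := by
        calc ((2 : ℝ) ^ 2 ^ J) ^ (C' * (C' * (2 + 1))) ≤
            ((N : ℝ) ^ (2 * ε₁)) ^ (C' * (C' * (2 + 1))) :=
              pow_le_pow_left₀ (by positivity) hJ2 _
          _ = (N : ℝ) ^ (2 * ε₁ * ((C' * (C' * (2 + 1)) : ℕ) : ℝ)) := by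
              rw [← Real.rpow_natCast, ← Real.rpow_mul hN0.le]
          _ ≤ (N : ℝ) ^ (1 / 2 : ℝ) := by
              apply Real.rpow_le_rpow_of_exponent_le hN1
              have h8 : ((C' * (C' * (2 + 1)) : ℕ) : ℝ) ≤ X₀ * (2 ^ k + 1) := by
                exact_mod_cast x5
              exact eps_bd _ _ _ hε h8 hεX
      rw [le_div_iff₀ (by positivity)]
      rw [one_mul] at hNlog
      calc ((2 : ℝ) ^ 2 ^ J) ^ (C' * (C' * (2 + 1))) * Real.log N ^ 2 ≤
          (N : ℝ) ^ (1 / 2 : ℝ) * (N : ℝ) ^ (1 / 2 : ℝ) := by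
            apply mul_le_mul h7 hNlog (by positivity) (by positivity)
        _ = N := by
            rw [← Real.rpow_add hN0]
            norm_num
    calc ((Sset ε₁ N).card : ℝ) ≤ 2 * (N * v) + ((2 : ℝ) ^ 2 ^ J) ^ (C' * (C' * (2 + 1))) := by
          linarith
      _ ≤ 2 * (N * (CW * c₂ ^ 2 / Real.log N ^ 2)) + N / Real.log N ^ 2 := by linarith
      _ = _ := by ring
  · -- the windows
    intro η₀ hη₀
    obtain ⟨B₀, hB₀⟩ : ∃ B₀ : ℝ, B₀ = 2 * (CW * c₂ ^ 2) * ((2 ^ k * 3) * (2 * (2 *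
      Real.exp (2 * 5 ^ (2 ^ k * 3))))) := ⟨_, rfl⟩
    have hB₀0 : 0 < B₀ := by rw [hB₀]; positivity
    obtain ⟨η, hη⟩ : ∃ η : ℝ, η = min η₀ (c / (4 * B₀)) := ⟨_, rfl⟩
    have hη0 : 0 < η := by rw [hη]; exact lt_min hη₀ (by positivity)
    have hηη₀ : η ≤ η₀ := by rw [hη]; exact min_le_left _ _
    have hηB : B₀ * η ≤ c / 4 := by
      have h1 : η ≤ c / (4 * B₀) := by rw [hη]; exact min_le_right _ _
      rw [le_div_iff₀ (by positivity)] at h1
      linarith
    have hW0r : (0 : ℝ) < W := by exact_mod_cast hW0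
    obtain ⟨cF, hcF⟩ : ∃ cF : ℝ, cF = (η / (4 * W)) ^ (2 ^ k) / (2 ^ k).factorial *
      (c / 2 * cV) / (8 * W) := ⟨_, rfl⟩
    have hcF0 : 0 < cF := by rw [hcF]; positivity
    refine ⟨cF, hcF0, ?_⟩
    obtain ⟨Yc, hYc⟩ := hcore 3
    obtain ⟨Y2, hY2⟩ := exJ ε₁ hε
    have hT := tendsto_natCast_atTop_atTop (R := ℝ)
    have hlogT : Tendsto (fun N : ℕ => Real.log N) atTop atTop :=
      Real.tendsto_log_atTop.comp hT
    have hev1 : ∀ᶠ N : ℕ in atTop, η + 1 + (2 * W * (2 * 2 ^ k + 1) + 2 * W + 2) / η ≤ Real.log N :=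
      hlogT.eventually_ge_atTop _
    have hev2 := ev_log (κ + 2) (32 * W * η / (c * cV)) (1 / 2) (by norm_num)
    have hev3 := ev_log 2 (8 * η) 1 one_pos
    have hW2 : 2 ≤ W := Nat.le_of_dvd hW0 h2W
    filter_upwards [hv, hVlow, hev1, hev2, hev3, numsE W 0 b (max Yc Y2) 0 0 0 0 hW2 hW0,
      eventually_ge_atTop (8 * b + 16)] with N hNv hNV hN1 hN2 hN3 hN4 hN5
    obtain ⟨n1, n2, n3, n4, n5, n6, n7, n8, n9, n10⟩ := hN4
    rw [add_zero] at n5 n9
    obtain ⟨M, hM⟩ : ∃ M : ℕ, M = N / W := ⟨_, rfl⟩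
    obtain ⟨L, hL⟩ : ∃ L : ℕ, L = N / (2 * W) := ⟨_, rfl⟩
    rw [← hM, ← hL] at n5
    rw [← hL] at n6 n7 n8 n9
    have hNr : (16 : ℝ) ≤ N := by exact_mod_cast n2
    have hN0 : (0 : ℝ) < N := by linarith
    have hN1r : (1 : ℝ) ≤ N := by linarith
    have hdiv0 : 0 ≤ (2 * W * (2 * 2 ^ k + 1) + 2 * W + 2) / η := by positivity
    have hlN1 : 1 ≤ Real.log N := by linarith
    have hlN : 0 < Real.log N := by linarith
    -- the sieving limit
    obtain ⟨J, hJ1, hJ2⟩ := hY2 N ((le_max_right _ _).trans n1)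
    obtain ⟨z, hz⟩ : ∃ z : ℕ, z + 1 = ⌈(N : ℝ) ^ ε₁⌉₊ := by
      have : 1 ≤ ⌈(N : ℝ) ^ ε₁⌉₊ := Nat.ceil_pos.2 (by positivity)
      exact ⟨⌈(N : ℝ) ^ ε₁⌉₊ - 1, by omega⟩
    have hz1 : (z : ℝ) < (N : ℝ) ^ ε₁ := by
      have h1 := Nat.ceil_lt_add_one (show 0 ≤ (N : ℝ) ^ ε₁ by positivity)
      rw [← hz] at h1
      push_cast at h1
      linarith
    have hz2 : (N : ℝ) ^ ε₁ ≤ z + 1 := by
      have h1 := Nat.le_ceil ((N : ℝ) ^ ε₁)
      rw [← hz] at h1
      push_cast at h1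
      exact h1
    have hzJ : z ≤ 2 ^ 2 ^ J := by
      have : (z : ℝ) < 2 ^ 2 ^ J := hz1.trans_le hJ1
      have h2 : z < 2 ^ 2 ^ J := by exact_mod_cast this
      exact h2.le
    obtain ⟨v1, v2⟩ := hNv z hz1 hz2
    have hVl := hNV z hz1 hz2
    -- the length of the windows
    obtain ⟨H, hH⟩ : ∃ H : ℕ, H = ⌊η * Real.log N ^ 2 / W⌋₊ := ⟨_, rfl⟩
    have hy0 : 0 ≤ η * Real.log N ^ 2 / W := by positivity
    have hHle : (H : ℝ) ≤ η * Real.log N ^ 2 / W := by
      rw [hH]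
      exact Nat.floor_le hy0
    have hWH : ((W * H : ℕ) : ℝ) ≤ η * Real.log N ^ 2 := by
      rw [le_div_iff₀ hW0r] at hHle
      push_cast
      linarith
    have hbigl : 2 * W * (2 * 2 ^ k + 1) + 2 * W + 2 ≤ η * Real.log N ^ 2 := by
      have h1 : (2 * W * (2 * 2 ^ k + 1) + 2 * W + 2) / η ≤ Real.log N := by linarith
      rw [div_le_iff₀ hη0] at h1
      exact log_sq_le _ _ _ hη0 (by linarith) h1
    have hHlow : η * Real.log N ^ 2 / (2 * W) ≤ H := by
      have h1 : η * Real.log N ^ 2 / W < H + 1 := by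
        rw [hH]
        exact Nat.lt_floor_add_one _
      have h2 : (2 : ℝ) ≤ η * Real.log N ^ 2 / W := by
        rw [le_div_iff₀ hW0r]
        have : (0 : ℝ) ≤ 2 * W * (2 * 2 ^ k + 1) + 2 := by positivity
        linarith
      have h3 : η * Real.log N ^ 2 / (2 * W) = η * Real.log N ^ 2 / W / 2 := by
        rw [div_div]
        congr 1
        ring
      rw [h3]
      linarith
    have hH2K : 2 * 2 ^ k ≤ H := by
      have h1 : ((2 * 2 ^ k : ℕ) : ℝ) ≤ H := by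
        refine le_trans ?_ hHlow
        rw [le_div_iff₀ (by positivity)]
        push_cast
        linarith
      exact_mod_cast h1
    have hHpos : 0 < H := by omega
    have hWHN : 8 * (W * H) ≤ N := by
      rw [Real.rpow_one] at hN3
      have h1 : ((8 * (W * H) : ℕ) : ℝ) ≤ N := by
        push_cast
        push_cast at hWH
        linarith
      exact_mod_cast h1
    have hHlog3 : (H : ℝ) ≤ Real.log N ^ 3 := by
      refine hHle.trans ?_
      have h1 : η ≤ Real.log N := by linarith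
      have hW1 : (1 : ℝ) ≤ W := by exact_mod_cast hW0
      calc η * Real.log N ^ 2 / W ≤ η * Real.log N ^ 2 := div_le_self (by positivity) hW1
        _ ≤ Real.log N * Real.log N ^ 2 := by gcongr
        _ = Real.log N ^ 3 := by ring
    -- the sets of slots
    obtain ⟨TT, hTT⟩ : ∃ TT, TT = powersetCard (2 ^ k) (range H) := ⟨_, rfl⟩
    obtain ⟨G, hG⟩ : ∃ G : Finset ℕ → Finset ℕ, G = fun T =>
      gp F2 N ε₁ W b (tT k T) m M L \ BadS W b z (W * H) M L (tT k T) := ⟨_, rfl⟩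
    have hmemT : ∀ T ∈ TT, T ⊆ range H ∧ T.card = 2 ^ k := by
      intro T hT
      rw [hTT, mem_powersetCard] at hT
      exact hT
    have hslot : ∀ T ∈ TT, ∀ i, tT k T i < H := by
      intro T hT i
      obtain ⟨h1, h2⟩ := hmemT T hT
      exact mem_range.1 (h1 (tT_mem k T h2 i))
    have hgpmem : ∀ T ∈ TT, ∀ x ∈ G T, x ∈ Ioc M (M + L) ∧
        (∀ j ∈ T, ∀ p : ℕ, p.Prime → (p : ℝ) < (N : ℝ) ^ ε₁ →
            ¬ (p : ℤ) ∣ F2 ((W * (x + j) + b : ℕ) : ℤ)) ∧
        m < (T.filter (fun j => (W * (x + j) + b).Prime)).card ∧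
        ∀ j < W * H, (∀ p : ℕ, p.Prime → (p : ℝ) < (N : ℝ) ^ ε₁ → ¬ p ∣ W →
            ¬ (p : ℤ) ∣ F2 ((W * x + (b + j) : ℕ) : ℤ)) →
            ∃ i ∈ T, j = W * i ∨ j = W * i + 2 ∨ j + 2 = W * i := by
      intro T hT x hx
      obtain ⟨t1, t2⟩ := hmemT T hT
      rw [hG] at hx
      obtain ⟨hx1, hx2⟩ := mem_sdiff.1 hx
      unfold R498.MP.gp at hx1
      rw [mem_filter] at hx1
      obtain ⟨y1, y2, y3⟩ := hx1
      refine ⟨y1, ?_, ?_, ?_⟩
      · intro j hj p hp hpN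
        obtain ⟨i, hi⟩ := tT_sur k T t2 j hj
        rw [← hi]
        exact y2 p hp hpN i
      · refine lt_of_lt_of_le y3 ?_
        refine card_le_card_of_injOn (tT k T) ?_ (fun i _ j _ hij => tT_inj k T hij)
        intro i hi
        have hi' : (W * (x + tT k T i) + b).Prime := by
          have := (mem_filter.1 (mem_coe.1 hi)).2
          exact this
        rw [mem_coe, mem_filter]
        exact ⟨tT_mem k T t2 i, hi'⟩
      · intro j hj hrough
        by_contra hcon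
        push Not at hcon
        apply hx2
        unfold BadS
        rw [mem_filter]
        refine ⟨y1, ?_, j, hj, ?_, ?_⟩
        · intro p hp i
          obtain ⟨q1, q2, q3⟩ := hPSmem z p hp
          have hpz : (p : ℝ) < (N : ℝ) ^ ε₁ := by
            have : (p : ℝ) ≤ z := by exact_mod_cast q2
            linarith
          exact y2 p q1 hpz i
        · intro i h0
          have h1 := hcon _ (tT_mem k T t2 i.1)
          unfold ee3 sg at h0
          rw [Int.natAbs_eq_zero] at h0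
          push_cast at h0
          split_ifs at h0 <;> omega
        · intro p hp
          obtain ⟨q1, q2, q3⟩ := hPSmem z p hp
          have hpz : (p : ℝ) < (N : ℝ) ^ ε₁ := by
            have : (p : ℝ) ≤ z := by exact_mod_cast q2
            linarith
          exact hrough p q1 hpz q3
    have hdisj : (TT : Set (Finset ℕ)).PairwiseDisjoint G := by
      intro T hT T' hT' hne
      rw [mem_coe] at hT hT'
      rw [Function.onFun, Finset.disjoint_left]
      intro x hx hx'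
      apply hne
      obtain ⟨t1, t2⟩ := hmemT T hT
      obtain ⟨t1', t2'⟩ := hmemT T' hT'
      symm
      apply Finset.eq_of_subset_of_card_le _ (by rw [t2, t2'])
      intro j hj
      have hjH := mem_range.1 (t1' hj)
      obtain ⟨-, -, -, h4⟩ := hgpmem T hT x hx
      obtain ⟨-, h5, -, -⟩ := hgpmem T' hT' x hx'
      have hWj : W * j < W * H := (Nat.mul_lt_mul_left hW0).2 hjH
      obtain ⟨i, hi, hij⟩ := h4 (W * j) hWj (fun p hp hpN _ => by
        have h6 := h5 j hj p hp hpN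
        have e : W * x + (b + W * j) = W * (x + j) + b := by ring
        rw [e]
        exact h6)
      have h6le : 6 ≤ W := Nat.le_of_dvd hW0 h6W
      have hii : i = j := by
        rcases hij with h | h | h
        · exact (Nat.eq_of_mul_eq_mul_left hW0 h).symm
        · exfalso
          have h7 : W ∣ 2 := (Nat.dvd_add_right (dvd_mul_right W i)).1 (h ▸ dvd_mul_right W j)
          have := Nat.le_of_dvd (by norm_num) h7
          omega
        · exfalso
          have h7 : W ∣ 2 := (Nat.dvd_add_right (dvd_mul_right W j)).1 (h ▸ dvd_mul_right W i)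
          have := Nat.le_of_dvd (by norm_num) h7
          omega
      rw [← hii]
      exact hi
    -- the size
    have hL1 : 1 ≤ L := by
      rcases Nat.eq_zero_or_pos L with h | h
      · rw [h, mul_zero, Nat.cast_zero] at n7
        have : (0 : ℝ) < (N : ℝ) ^ (1 / 2 : ℝ) := by positivity
        linarith
      · exact h
    have hLr : (1 : ℝ) ≤ L := by exact_mod_cast hL1
    have hLN : (N : ℝ) ≤ 8 * W * L := by
      obtain ⟨w1, w2, w3, w4, w5⟩ := n5
      have : N ≤ 8 * W * L := by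
        have e : 8 * W * L = 8 * (W * L) := by ring
        omega
      exact_mod_cast this
    have hsize : ∀ T ∈ TT, c / 2 * cV * (L / Real.log N ^ κ) ≤ ((G T).card : ℝ) := by
      intro T hT
      obtain ⟨t1, t2⟩ := hmemT T hT
      obtain ⟨u1, u2, -⟩ := hYc N ((le_max_left _ _).trans n1) (tT k T) (tT_inj k T)
        (fun i => le_trans (by exact_mod_cast (hslot T hT i).le) hHlog3) b (by omega) hb M L z n5
        hz1 hz2
      have hVl' := hVl (tT k T)
      obtain ⟨V, hV⟩ : ∃ V, V = Vp F2 W b z (tT k T) := ⟨_, rfl⟩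
      rw [← hV] at u1 u2 hVl'
      have hb1 := hbad (2 ^ k) W (by positivity) ⟨h2W, h3W⟩ hWC J z M L b (W * H) (tT k T) hzJ
        (fun i => (Nat.mul_lt_mul_left hW0).2 (hslot T hT i))
      have hVe : ∏ p ∈ PS W z, (1 - (rhoT F2 W b (tT k T) p : ℝ) / p) = V := by
        rw [hV]
        rfl
      rw [hVe] at hb1
      set v := ∏ p ∈ PS W z, (1 - (2 : ℕ) / (p : ℝ)) with hvdef
      have hXr : (((W * H + 2 : ℕ)) : ℝ) ≤ 2 * (η * Real.log N ^ 2) := by
        push_cast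
        push_cast at hWH
        have : (0 : ℝ) ≤ 2 * W * (2 * 2 ^ k + 1) + 2 * W := by positivity
        linarith
      have hmain1 : 2 * (L * (V * v)) * (((2 ^ k : ℕ) * 3) * (2 * (((W * H + 2 : ℕ) : ℝ) *
          Real.exp (2 * 5 ^ (2 ^ k * 3))))) ≤ c / 4 * (L * V) := by
        calc 2 * (L * (V * v)) * (((2 ^ k : ℕ) * 3) * (2 * (((W * H + 2 : ℕ) : ℝ) *
              Real.exp (2 * 5 ^ (2 ^ k * 3)))))
            ≤ 2 * (L * (V * (CW * c₂ ^ 2 / Real.log N ^ 2))) * (((2 ^ k : ℕ) * 3) *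
              (2 * ((2 * (η * Real.log N ^ 2)) * Real.exp (2 * 5 ^ (2 ^ k * 3))))) := by
              gcongr
          _ = B₀ * η * (L * V) := by
              rw [hB₀]
              push_cast
              field_simp
          _ ≤ c / 4 * (L * V) := by
              apply mul_le_mul_of_nonneg_right hηB (by positivity)
      have hE : ((W * H : ℕ) : ℝ) * ((2 : ℝ) ^ 2 ^ J) ^ (C * (C * (2 * 2 ^ k + 2 + 1))) ≤
          c / 4 * (L * V) := by
        have h7 : ((2 : ℝ) ^ 2 ^ J) ^ (C * (C * (2 * 2 ^ k + 2 + 1))) ≤ (N : ℝ) ^ (1 / 2 : ℝ) := by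
          calc ((2 : ℝ) ^ 2 ^ J) ^ (C * (C * (2 * 2 ^ k + 2 + 1))) ≤
              ((N : ℝ) ^ (2 * ε₁)) ^ (C * (C * (2 * 2 ^ k + 2 + 1))) :=
                pow_le_pow_left₀ (by positivity) hJ2 _
            _ = (N : ℝ) ^ (2 * ε₁ * ((C * (C * (2 * 2 ^ k + 2 + 1)) : ℕ) : ℝ)) := by
                rw [← Real.rpow_natCast, ← Real.rpow_mul hN0.le]
            _ ≤ (N : ℝ) ^ (1 / 2 : ℝ) := by
                apply Real.rpow_le_rpow_of_exponent_le hN1r
                have h8 : ((C * (C * (2 * 2 ^ k + 2 + 1)) : ℕ) : ℝ) ≤ X₀ * (2 ^ k + 1) := by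
                  exact_mod_cast x6
                exact eps_bd _ _ _ hε h8 hεX
        have h9 : 32 * W * η / (c * cV) * Real.log N ^ (κ + 2) ≤ (N : ℝ) ^ (1 / 2 : ℝ) := hN2
        have h10 : (N : ℝ) ^ (1 / 2 : ℝ) * (N : ℝ) ^ (1 / 2 : ℝ) = N := by
          rw [← Real.rpow_add hN0]
          norm_num
        have h11 : 32 * W * η * Real.log N ^ (κ + 2) * (N : ℝ) ^ (1 / 2 : ℝ) ≤ c * cV * N := by
          rw [div_mul_eq_mul_div, div_le_iff₀ (by positivity)] at h9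
          calc 32 * W * η * Real.log N ^ (κ + 2) * (N : ℝ) ^ (1 / 2 : ℝ)
              ≤ (N : ℝ) ^ (1 / 2 : ℝ) * (c * cV) * (N : ℝ) ^ (1 / 2 : ℝ) := by gcongr
            _ = c * cV * ((N : ℝ) ^ (1 / 2 : ℝ) * (N : ℝ) ^ (1 / 2 : ℝ)) := by ring
            _ = c * cV * N := by rw [h10]
        have h12 : c / 4 * (N / (8 * W) * (cV / Real.log N ^ κ)) ≤ c / 4 * (L * V) := by
          have : (N : ℝ) / (8 * W) ≤ L := by
            rw [div_le_iff₀ (by positivity)]
            linarith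
          gcongr
        refine le_trans ?_ h12
        calc ((W * H : ℕ) : ℝ) * ((2 : ℝ) ^ 2 ^ J) ^ (C * (C * (2 * 2 ^ k + 2 + 1)))
            ≤ (η * Real.log N ^ 2) * (N : ℝ) ^ (1 / 2 : ℝ) := by gcongr
          _ = (32 * W * η * Real.log N ^ (κ + 2) * (N : ℝ) ^ (1 / 2 : ℝ)) /
              (32 * W * Real.log N ^ κ) := by
              rw [pow_add]
              field_simp
          _ ≤ (c * cV * N) / (32 * W * Real.log N ^ κ) := by gcongr
          _ = c / 4 * (N / (8 * W) * (cV / Real.log N ^ κ)) := by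
              field_simp
              ring
      have hbadc : ((BadS W b z (W * H) M L (tT k T)).card : ℝ) ≤ c / 2 * (L * V) := by
        have h13 := hb1.trans (add_le_add hmain1 hE)
        linarith
      have hsd : ((gp F2 N ε₁ W b (tT k T) m M L).card : ℝ) -
          ((BadS W b z (W * H) M L (tT k T)).card : ℝ) ≤ ((G T).card : ℝ) := by
        rw [hG]
        have := Finset.le_card_sdiff (BadS W b z (W * H) M L (tT k T))
          (gp F2 N ε₁ W b (tT k T) m M L)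
        have h14 : (gp F2 N ε₁ W b (tT k T) m M L).card ≤
          (gp F2 N ε₁ W b (tT k T) m M L \ BadS W b z (W * H) M L (tT k T)).card +
          (BadS W b z (W * H) M L (tT k T)).card := by omega
        have h15 : ((gp F2 N ε₁ W b (tT k T) m M L).card : ℝ) ≤
          ((gp F2 N ε₁ W b (tT k T) m M L \ BadS W b z (W * H) M L (tT k T)).card : ℝ) +
          ((BadS W b z (W * H) M L (tT k T)).card : ℝ) := by exact_mod_cast h14
        linarith
      calc c / 2 * cV * (L / Real.log N ^ κ) = c / 2 * (L * (cV / Real.log N ^ κ)) := by ring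
        _ ≤ c / 2 * (L * V) := by gcongr
        _ ≤ _ := by linarith
    refine ⟨H, TT.biUnion G, hWH.trans (by gcongr), hHpos, ?_, ?_⟩
    · rw [card_biUnion (fun T hT T' hT' hne => hdisj (mem_coe.2 hT) (mem_coe.2 hT') hne)]
      push_cast
      have h1 : (TT.card : ℝ) * (c / 2 * cV * (L / Real.log N ^ κ)) ≤ ∑ T ∈ TT, ((G T).card : ℝ) := by
        rw [← nsmul_eq_mul]
        exact card_nsmul_le_sum _ _ _ hsize
      refine le_trans ?_ h1
      have h2 : (η * Real.log N ^ 2 / (4 * W)) ^ (2 ^ k) / (2 ^ k).factorial ≤ (TT.card : ℝ) := by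
        rw [hTT, card_powersetCard, card_range]
        refine le_trans ?_ (choose_low H (2 ^ k) (by positivity) hH2K)
        apply div_le_div_of_nonneg_right _ (by positivity)
        apply pow_le_pow_left₀ (by positivity)
        have e : η * Real.log N ^ 2 / (4 * W) = η * Real.log N ^ 2 / (2 * W) / 2 := by
          rw [div_div]
          congr 1
          ring
        rw [e]
        linarith
      have h3 : (N : ℝ) / (8 * W) ≤ L := by
        rw [div_le_iff₀ (by positivity)]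
        linarith
      calc cF * N = (η / (4 * W)) ^ (2 ^ k) / (2 ^ k).factorial * (c / 2 * cV * (N / (8 * W))) := by
            rw [hcF]
            ring
        _ ≤ (η / (4 * W)) ^ (2 ^ k) / (2 ^ k).factorial * (c / 2 * cV * L) := by gcongr
        _ = (η * Real.log N ^ 2 / (4 * W)) ^ (2 ^ k) / (2 ^ k).factorial *
            (c / 2 * cV * (L / Real.log N ^ κ)) := by
            have e : (η * Real.log N ^ 2 / (4 * W)) ^ (2 ^ k) =
                (η / (4 * W)) ^ (2 ^ k) * Real.log N ^ κ := by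
              rw [hκ, pow_mul, ← mul_pow]
              congr 1
              ring
            rw [e]
            field_simp
        _ ≤ _ := by gcongr
    · intro x hx
      rw [mem_biUnion] at hx
      obtain ⟨T, hT, hx⟩ := hx
      obtain ⟨h1, h2, h3, h4⟩ := hgpmem T hT x hx
      rw [mem_Ioc] at h1
      refine ⟨?_, ?_, T, (hmemT T hT).1, h3, h2, h4⟩
      · have h5 : N < W * (M + 1) := by
          rw [hM]
          exact Nat.lt_mul_div_succ N hW0
        have h6 : W * (M + 1) ≤ W * x := Nat.mul_le_mul_left _ (by omega)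
        omega
      · have h5 : W * M ≤ N := by rw [hM]; exact Nat.mul_div_le _ _
        have h6 : 2 * W * L ≤ N := by rw [hL]; exact Nat.mul_div_le _ _
        have h7 : W * x ≤ W * (M + L) := Nat.mul_le_mul_left _ h1.2
        have h8 : W * (M + L) = W * M + W * L := by ring
        have h9 : 2 * W * L = 2 * (W * L) := by ring
        omega

end Pool.Agent.V8H2.MQ
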