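import Pool.Agent.V8H2.MQ.Gen
import Pool.Agent.Y833.RSZ.LOC
import Pool.Agent.V8H2.MQ.Dens

/-!
The sieve upper bound for a tuple of pairs with one more pair, on average over the additional pair.
-/

set_option autoImplicit false

namespace Pool.Agent.V8H2.MQ

open Finset Filter
open Pool.Agent.TH423.SH (PS)
open Pool.Agent.Y677.RSZ (rt Sys rhoT)
open Pool.Agent.Y852.RSZ (OmC card_one_le)
open Pool.Agent.V8H2.QW (GG GG_pos GG_le fac_pos)

/-- the pairs -/
def F2 (n : ℤ) : ℤ := n * (n + 2)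

theorem F2_per (p : ℕ) (n : ℤ) : (p : ℤ) ∣ F2 (n + p) - F2 n := by
  unfold F2
  exact ⟨2 * n + p + 2, by ring⟩

theorem F2_dvd {p : ℕ} (hp : p.Prime) (n : ℤ) : (p : ℤ) ∣ F2 n ↔ (p : ℤ) ∣ n ∨ (p : ℤ) ∣ n + 2 :=
  (Nat.prime_iff_prime_int.1 hp).dvd_mul

theorem rt2 (p : ℕ) (hp : p.Prime) : rt F2 p ≤ 2 := by
  classical
  unfold rt
  refine (card_le_card (t := {0, p - 2}) ?_).trans card_le_two
  intro r hr
  rw [mem_filter, mem_range] at hr
  obtain ⟨h1, h2⟩ := hr
  rw [mem_insert, mem_singleton]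
  have h3 := hp.two_le
  rcases (F2_dvd hp _).1 h2 with h | h
  · left
    exact Nat.eq_zero_of_dvd_of_lt (by exact_mod_cast h) h1
  · right
    have h4 : p ∣ r + 2 := by exact_mod_cast h
    obtain ⟨k, hk⟩ := h4
    have h5 : 0 < k := by
      rcases Nat.eq_zero_or_pos k with h | h
      · rw [h] at hk
        omega
      · exact h
    have h6 : k < 2 := by
      by_contra hcon
      have : p * 2 ≤ p * k := Nat.mul_le_mul_left _ (by omega)
      omega
    have h7 : k = 1 := by omega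
    rw [h7] at hk
    omega

/-- the classes of one more pair -/
def R2 (W β p : ℕ) : Finset ℕ := (range p).filter (fun r : ℕ => (p : ℤ) ∣ F2 ((W * r + β : ℕ) : ℤ))

theorem R2_le (W β p : ℕ) (hp : p.Prime) (hW : ¬ p ∣ W) : (R2 W β p).card ≤ 2 := by
  have h := card_one_le hp (F2_per p) W β 0 hW
  refine le_trans (le_of_eq ?_) (h.trans (rt2 p hp))
  unfold R2
  simp

theorem R2_ge (W β p : ℕ) (hp : p.Prime) (hp2 : 2 < p) (hW : ¬ p ∣ W) : 2 ≤ (R2 W β p).card := by
  classical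
  have hinj : Set.InjOn (fun r => (W * r + β) % p) (range p : Finset ℕ) := by
    intro r hr s hs hrs
    rw [mem_coe, mem_range] at hr hs
    have h1 : W * r + β ≡ W * s + β [MOD p] := hrs
    have h2 : W * r ≡ W * s [MOD p] := Nat.ModEq.add_right_cancel' β h1
    have h3 : r ≡ s [MOD p] := Nat.ModEq.cancel_left_of_coprime (by
      rw [← Nat.coprime_iff_gcd_eq_one]
      exact (Nat.Prime.coprime_iff_not_dvd hp).2 hW) h2
    have h4 : r % p = s % p := h3
    rwa [Nat.mod_eq_of_lt hr, Nat.mod_eq_of_lt hs] at h4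
  have hmaps : Set.MapsTo (fun r => (W * r + β) % p) (range p : Finset ℕ) (range p : Finset ℕ) := by
    intro r _
    rw [mem_coe, mem_range]
    exact Nat.mod_lt _ hp.pos
  have hsurj := Finset.surjOn_of_injOn_of_card_le _ hmaps hinj le_rfl
  obtain ⟨r, hr, hr2⟩ := hsurj (show (0 : ℕ) ∈ ((range p : Finset ℕ) : Set ℕ) by
    rw [mem_coe, mem_range]; omega)
  obtain ⟨s, hs, hs2⟩ := hsurj (show (p - 2 : ℕ) ∈ ((range p : Finset ℕ) : Set ℕ) by
    rw [mem_coe, mem_range]; omega)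
  have hrs : r ≠ s := by
    intro h
    rw [h] at hr2
    simp only at hr2 hs2
    omega
  rw [← card_pair hrs]
  apply card_le_card
  intro x hx
  rw [mem_insert, mem_singleton] at hx
  unfold R2
  rw [mem_filter]
  rcases hx with rfl | rfl
  · refine ⟨hr, ?_⟩
    unfold F2
    apply Dvd.dvd.mul_right
    exact_mod_cast Nat.dvd_of_mod_eq_zero hr2
  · refine ⟨hs, ?_⟩
    unfold F2
    apply Dvd.dvd.mul_left
    have h1 : p ∣ W * x + β + 2 := by
      have h2 := Nat.div_add_mod (W * x + β) p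
      simp only at hs2
      rw [hs2] at h2
      refine ⟨(W * x + β) / p + 1, ?_⟩
      rw [mul_add, mul_one]
      omega
    exact_mod_cast h1

/-- the forbidden classes -/
def OmB (W b : ℕ) {m : ℕ} (t : Fin m → ℕ) (β p : ℕ) : Finset ℕ := OmC F2 W b t p ∪ R2 W β p

/-- the shifts -/
def sg (s : Fin 3) : ℤ := if s = 0 then 0 else if s = 1 then 2 else -2

/-- the numbers with the exceptional primes -/
def ee3 (W b : ℕ) {m : ℕ} (t : Fin m → ℕ) (β : ℕ) (i : Fin m × Fin 3) : ℕ :=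
  (((W * t i.1 + b : ℕ) : ℤ) - (β : ℤ) + sg i.2).natAbs

theorem OmC_rho (W b : ℕ) {m : ℕ} (t : Fin m → ℕ) (p : ℕ) :
    (OmC F2 W b t p).card = rhoT F2 W b t p := by
  unfold OmC rhoT
  rfl

theorem OmC_le (W b : ℕ) {m : ℕ} (t : Fin m → ℕ) (p : ℕ) (hp : p.Prime) (hW : ¬ p ∣ W) :
    rhoT F2 W b t p ≤ 2 * m := by
  have h1 := Pool.Agent.Y833.RSZ.rhoT_le hp (F2_per p) W b t hW
  have h2 : m * rt F2 p ≤ m * 2 := Nat.mul_le_mul_left _ (rt2 p hp)
  omega

theorem OmB_le (W b : ℕ) {m : ℕ} (t : Fin m → ℕ) (β p : ℕ) (hp : p.Prime) (hW : ¬ p ∣ W) :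
    (OmB W b t β p).card ≤ 2 * m + 2 := by
  unfold OmB
  refine (card_union_le _ _).trans ?_
  have h1 := OmC_le W b t p hp hW
  rw [← OmC_rho] at h1
  have h2 := R2_le W β p hp hW
  omega

theorem OmB_ge (W b : ℕ) {m : ℕ} (t : Fin m → ℕ) (β p : ℕ) (hp : p.Prime) (hp2 : 2 < p)
    (hW : ¬ p ∣ W) (h : ∀ i, ¬ p ∣ ee3 W b t β i) :
    rhoT F2 W b t p + 2 ≤ (OmB W b t β p).card := by
  classical
  unfold OmB
  rw [card_union_of_disjoint, OmC_rho]
  · have := R2_ge W β p hp hp2 hW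
    omega
  · rw [Finset.disjoint_left]
    intro r hr hr2
    unfold OmC at hr
    unfold R2 at hr2
    rw [mem_filter] at hr hr2
    obtain ⟨_, i, hi⟩ := hr
    have hj := hr2.2
    rw [F2_dvd hp] at hi hj
    have key : ∀ s : Fin 3, ¬ (p : ℤ) ∣ ((W * t i + b : ℕ) : ℤ) - (β : ℤ) + sg s := by
      intro s hs
      exact h (i, s) (Int.natCast_dvd.1 hs)
    have s0 : sg 0 = 0 := by simp [sg]
    have s1 : sg 1 = 2 := by simp [sg]
    have s2 : sg 2 = -2 := by simp [sg]
    rcases hi with hi | hi <;> rcases hj with hj | hj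
    · apply key 0
      have e : ((W * t i + b : ℕ) : ℤ) - (β : ℤ) + sg 0 =
          ((W * (r + t i) + b : ℕ) : ℤ) - ((W * r + β : ℕ) : ℤ) := by
        rw [s0]
        push_cast
        ring
      rw [e]
      exact dvd_sub hi hj
    · apply key 2
      have e : ((W * t i + b : ℕ) : ℤ) - (β : ℤ) + sg 2 =
          ((W * (r + t i) + b : ℕ) : ℤ) - (((W * r + β : ℕ) : ℤ) + 2) := by
        rw [s2]
        push_cast
        ring
      rw [e]
      exact dvd_sub hi hj
    · apply key 1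
      have e : ((W * t i + b : ℕ) : ℤ) - (β : ℤ) + sg 1 =
          (((W * (r + t i) + b : ℕ) : ℤ) + 2) - ((W * r + β : ℕ) : ℤ) := by
        rw [s1]
        push_cast
        ring
      rw [e]
      exact dvd_sub hi hj
    · apply key 0
      have e : ((W * t i + b : ℕ) : ℤ) - (β : ℤ) + sg 0 =
          (((W * (r + t i) + b : ℕ) : ℤ) + 2) - (((W * r + β : ℕ) : ℤ) + 2) := by
        rw [s0]
        push_cast
        ring
      rw [e]
      exact dvd_sub hi hj

open Classical in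
theorem fac_le (W b : ℕ) {m : ℕ} (t : Fin m → ℕ) (β p : ℕ) (hp : p.Prime) (hp2 : 3 < p)
    (hW : ¬ p ∣ W) (hm : 2 * m + 2 < p) :
    0 ≤ 1 - ((OmB W b t β p).card : ℝ) / p ∧ 1 - ((OmB W b t β p).card : ℝ) / p ≤
      (1 - (rhoT F2 W b t p : ℝ) / p) * ((1 - (2 : ℕ) / (p : ℝ)) *
        ∏ i, (if p ∣ ee3 W b t β i then 1 + 4 / (p : ℝ) else 1)) := by
  have hp0 : (0 : ℝ) < p := by exact_mod_cast hp.pos
  have hp4 : (4 : ℝ) ≤ p := by exact_mod_cast hp2
  have h1 := OmB_le W b t β p hp hW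
  have h1r : ((OmB W b t β p).card : ℝ) ≤ p := by exact_mod_cast (by omega : (OmB W b t β p).card ≤ p)
  have h2 := OmC_le W b t p hp hW
  have h2r : (rhoT F2 W b t p : ℝ) ≤ p := by exact_mod_cast (by omega : rhoT F2 W b t p ≤ p)
  have h3 : 0 ≤ 1 - (rhoT F2 W b t p : ℝ) / p := by
    rw [sub_nonneg, div_le_one hp0]
    exact h2r
  have h4 : 0 ≤ 1 - (2 : ℕ) / (p : ℝ) := by
    rw [sub_nonneg, div_le_one hp0]
    push_cast
    linarith
  have hone : ∀ i, (1 : ℝ) ≤ (if p ∣ ee3 W b t β i then 1 + 4 / (p : ℝ) else 1) := by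
    intro i
    split_ifs
    · have : 0 ≤ 4 / (p : ℝ) := by positivity
      linarith
    · exact le_rfl
  refine ⟨?_, ?_⟩
  · rw [sub_nonneg, div_le_one hp0]
    exact h1r
  · by_cases h : ∀ i, ¬ p ∣ ee3 W b t β i
    · have h5 := OmB_ge W b t β p hp (by omega) hW h
      have h5r : (rhoT F2 W b t p : ℝ) + 2 ≤ (OmB W b t β p).card := by exact_mod_cast h5
      have h6 : ∏ i, (if p ∣ ee3 W b t β i then 1 + 4 / (p : ℝ) else 1) = 1 := by
        apply prod_eq_one
        intro i _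
        rw [if_neg (h i)]
      rw [h6, mul_one]
      have h7 : ((rhoT F2 W b t p : ℝ) + 2) / p ≤ ((OmB W b t β p).card : ℝ) / p := by gcongr
      have h8 : (1 - (rhoT F2 W b t p : ℝ) / p) * (1 - (2 : ℕ) / (p : ℝ)) =
          1 - ((rhoT F2 W b t p : ℝ) + 2) / p + (rhoT F2 W b t p : ℝ) / p * (2 / p) := by
        push_cast
        ring
      rw [h8]
      have h9 : 0 ≤ (rhoT F2 W b t p : ℝ) / p * (2 / p) := by positivity
      linarith
    · push Not at h
      obtain ⟨i, hi⟩ := h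
      have h5 : 1 + 4 / (p : ℝ) ≤ ∏ i, (if p ∣ ee3 W b t β i then 1 + 4 / (p : ℝ) else 1) := by
        rw [← Finset.mul_prod_erase univ _ (mem_univ i), if_pos hi]
        have h4p : 0 ≤ 4 / (p : ℝ) := by positivity
        apply le_mul_of_one_le_right (by linarith)
        exact Finset.one_le_prod (fun j _ => hone j)
      have h7 : (1 : ℝ) ≤ (1 - (2 : ℕ) / (p : ℝ)) *
          ∏ i, (if p ∣ ee3 W b t β i then 1 + 4 / (p : ℝ) else 1) := by
        refine le_trans ?_ (mul_le_mul_of_nonneg_left h5 h4)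
        have h8 : (1 - (2 : ℕ) / (p : ℝ)) * (1 + 4 / (p : ℝ)) = 1 + 2 / (p : ℝ) ^ 2 * (p - 4) := by
          push_cast
          field_simp
          ring
        rw [h8]
        have : 0 ≤ 2 / (p : ℝ) ^ 2 * (p - 4) := mul_nonneg (by positivity) (by linarith)
        linarith
      have h9 : (rhoT F2 W b t p : ℝ) ≤ (OmB W b t β p).card := by
        rw [← OmC_rho]
        exact_mod_cast card_le_card subset_union_left
      have h10 : (rhoT F2 W b t p : ℝ) / p ≤ ((OmB W b t β p).card : ℝ) / p := by gcongr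
      calc 1 - ((OmB W b t β p).card : ℝ) / p ≤ (1 - (rhoT F2 W b t p : ℝ) / p) * 1 := by linarith
        _ ≤ _ := mul_le_mul_of_nonneg_left h7 h3

/-- the majorant -/
noncomputable def Gm (C : ℝ) (e : ℕ) : ℝ := ∏ p ∈ e.primeFactors, (1 + C / p)

theorem Gm_one (C : ℝ) (hC : 0 ≤ C) (e : ℕ) : 1 ≤ Gm C e := by
  unfold Gm
  apply one_le_prod
  intro p _
  have : 0 ≤ C / (p : ℝ) := by positivity
  linarith

theorem pow_step (n : ℕ) (x : ℝ) (h0 : 0 ≤ x) (h4 : x ≤ 4) : (1 + x) ^ n ≤ 1 + x * ((5 ^ n - 1) / 4) := by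
  induction n with
  | zero => simp
  | succ n ih =>
    have h5 : (0 : ℝ) ≤ 5 ^ n - 1 := by
      have : (1 : ℝ) ≤ 5 ^ n := one_le_pow₀ (by norm_num)
      linarith
    calc (1 + x) ^ (n + 1) = (1 + x) ^ n * (1 + x) := pow_succ _ _
      _ ≤ (1 + x * ((5 ^ n - 1) / 4)) * (1 + x) := by gcongr
      _ = 1 + x * (1 + (5 ^ n - 1) / 4 + x * ((5 ^ n - 1) / 4)) := by ring
      _ ≤ 1 + x * (1 + (5 ^ n - 1) / 4 + 4 * ((5 ^ n - 1) / 4)) := by gcongr
      _ = 1 + x * ((5 ^ (n + 1) - 1) / 4) := by ring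

theorem Gm_pow (n e : ℕ) : Gm 4 e ^ n ≤ Gm (5 ^ n) e := by
  unfold Gm
  rw [← prod_pow]
  apply Finset.prod_le_prod
  · intro p _
    positivity
  · intro p hp
    have hp1 : (1 : ℝ) ≤ p := by exact_mod_cast (Nat.prime_of_mem_primeFactors hp).one_le
    have h1 : (4 : ℝ) / p ≤ 4 := div_le_self (by norm_num) hp1
    refine (pow_step n (4 / p) (by positivity) h1).trans ?_
    have h2 : (4 : ℝ) / p * ((5 ^ n - 1) / 4) = (5 ^ n - 1) / p := by ring
    rw [h2]
    have h3 : ((5 : ℝ) ^ n - 1) / p ≤ 5 ^ n / p := by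
      gcongr
      linarith
    linarith

theorem prod_le_sum {ι : Type} [Fintype ι] [DecidableEq ι] (hι : Nonempty ι) (a : ι → ℝ)
    (h : ∀ i, 1 ≤ a i) : ∏ i, a i ≤ ∑ i, a i ^ Fintype.card ι := by
  obtain ⟨j, -, hj⟩ := Finset.exists_max_image (univ : Finset ι) a univ_nonempty
  calc ∏ i, a i ≤ ∏ _i : ι, a j := by
        apply Finset.prod_le_prod
        · intro i _
          linarith [h i]
        · intro i _
          exact hj i (mem_univ i)
    _ = a j ^ Fintype.card ι := by rw [prod_const, card_univ]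
    _ ≤ _ := single_le_sum (f := fun i => a i ^ Fintype.card ι)
        (fun i _ => pow_nonneg (by linarith [h i]) _) (mem_univ j)

open Classical in
/-- the product of the densities -/
theorem prod_B (W b z : ℕ) {m : ℕ} (t : Fin m → ℕ) (β : ℕ) (h3 : 2 ∣ W ∧ 3 ∣ W)
    (hWm : ∀ p : ℕ, p.Prime → p ≤ 2 * m + 2 → p ∣ W) (hne : ∀ i, ee3 W b t β i ≠ 0) :
    0 ≤ ∏ p ∈ PS W z, (1 - ((OmB W b t β p).card : ℝ) / p) ∧
    ∏ p ∈ PS W z, (1 - ((OmB W b t β p).card : ℝ) / p) ≤
      (∏ p ∈ PS W z, (1 - (rhoT F2 W b t p : ℝ) / p)) * (∏ p ∈ PS W z, (1 - (2 : ℕ) / (p : ℝ))) *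
        ∏ i, Gm 4 (ee3 W b t β i) := by
  have hmem : ∀ p ∈ PS W z, p.Prime ∧ 3 < p ∧ ¬ p ∣ W ∧ 2 * m + 2 < p := by
    intro p hp
    unfold PS at hp
    rw [mem_filter, mem_Icc] at hp
    obtain ⟨_, h1, h2⟩ := hp
    refine ⟨h1, ?_, h2, ?_⟩
    · by_contra hcon
      have h5 := h1.two_le
      have h6 : p = 2 ∨ p = 3 := by omega
      rcases h6 with rfl | rfl
      · exact h2 h3.1
      · exact h2 h3.2
    · by_contra hcon
      exact h2 (hWm p h1 (not_lt.1 hcon))
  have hf : ∀ p ∈ PS W z, _ := fun p hp => fac_le W b t β p (hmem p hp).1 (hmem p hp).2.1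
    (hmem p hp).2.2.1 (hmem p hp).2.2.2
  refine ⟨prod_nonneg fun p hp => (hf p hp).1, ?_⟩
  refine (Finset.prod_le_prod (fun p hp => (hf p hp).1) (fun p hp => (hf p hp).2)).trans ?_
  rw [prod_mul_distrib, prod_mul_distrib, mul_assoc]
  apply mul_le_mul_of_nonneg_left _
  · apply prod_nonneg
    intro p hp
    obtain ⟨g1, g2, g3, g4⟩ := hmem p hp
    have hp0 : (0 : ℝ) < p := by exact_mod_cast g1.pos
    have h2 := OmC_le W b t p g1 g3
    rw [sub_nonneg, div_le_one hp0]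
    exact_mod_cast (by omega : rhoT F2 W b t p ≤ p)
  · apply mul_le_mul_of_nonneg_left _
    · apply prod_nonneg
      intro p hp
      obtain ⟨g1, g2, g3, g4⟩ := hmem p hp
      have hp0 : (0 : ℝ) < p := by exact_mod_cast g1.pos
      rw [sub_nonneg, div_le_one hp0]
      exact_mod_cast (by omega : 2 ≤ p)
    · rw [Finset.prod_comm]
      apply Finset.prod_le_prod
      · intro i _
        apply prod_nonneg
        intro p _
        split_ifs <;> positivity
      · intro i _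
        rw [← prod_filter]
        unfold Gm
        apply Finset.prod_le_prod_of_subset_of_one_le
        · intro p hp
          rw [mem_filter] at hp
          exact Nat.mem_primeFactors.2 ⟨(hmem p hp.1).1, hp.2, hne i⟩
        · intro p _
          positivity
        · intro p _ _
          have : 0 ≤ (4 : ℝ) / p := by positivity
          linarith

end Pool.Agent.V8H2.MQ
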